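import Pool.Agent.W586.GZ.Stm

set_option autoImplicit false

namespace Pool.Agent.W586.GZ

theorem dep (hREC : S_REC1) (h1 : S_DEPH1) (h2 : S_DEPH2) : S_DEP := by
  intro P j y f q hdep
  have hm8 : 8 ≤ P.m (2 * j + 1) := by
    have h0 : P.m 1 ≤ P.m (2 * j + 1) := P.mlt.monotone (by omega)
    have h1 : P.m 1 = P.m 0 ^ 3 := P.mS 0
    have h2 := P.m0
    have h3 : 2 ^ 3 ≤ P.m 0 ^ 3 := Nat.pow_le_pow_left h2 3
    omega
  have hm8' : (8 : ℝ) ≤ P.m (2 * j + 1) := by exact_mod_cast hm8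
  set m : ℝ := (P.m (2 * j + 1) : ℝ) with hm
  set n : ℝ := (P.n (2 * j + 1) : ℝ) with hn
  have hn0 : 0 ≤ n := Nat.cast_nonneg _
  have hrec := hREC P (P.n (2 * j + 1)) (2 * j + 1) y (24 / m ^ 2) 12 36 (by positivity)
    (by norm_num) (by norm_num) hdep.ys (fun i hi => (hdep.ex i hi).all) ?_
    (2 * P.m (2 * j + 1)) (Finset.range (P.n (2 * j + 1))) (Finset.Subset.refl _)
  · refine hrec.mono ?_
    rw [Finset.card_range]
    have e1 : 2 * j + 1 - 1 = 2 * j := by omega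
    rw [e1]
    have hpow : m ^ 2 ≤ 2 ^ (2 * P.m (2 * j + 1)) := by
      have : P.m (2 * j + 1) ≤ 2 ^ P.m (2 * j + 1) := Nat.lt_two_pow_self.le
      have h3 : m ≤ 2 ^ P.m (2 * j + 1) := by rw [hm]; exact_mod_cast this
      calc m ^ 2 ≤ (2 ^ P.m (2 * j + 1)) ^ 2 := by gcongr
        _ = 2 ^ (2 * P.m (2 * j + 1)) := by rw [← pow_mul, mul_comm]
    have hA : 12 * n / 2 ^ (2 * P.m (2 * j + 1)) ≤ 12 * n / m ^ 2 := by
      gcongr
    have hnS : m ^ 3 * ((P.n (2 * j) : ℝ) + 1) ^ (2 * P.m (2 * j + 1)) ≤ n := by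
      have h4 := P.nS (2 * j)
      have h5 : P.m (2 * j + 1) ^ 3 * (P.n (2 * j) + 1) ^ (2 * P.m (2 * j + 1))
          ≤ P.n (2 * j + 1) := by
        refine le_trans ?_ h4
        apply Nat.mul_le_mul_left
        exact Nat.pow_le_pow_right (by omega) (by omega)
      rw [hm, hn]; exact_mod_cast h5
    have hB : 2 * 36 * ((P.n (2 * j) : ℝ) + 1) ^ (2 * P.m (2 * j + 1)) ≤ 9 * n / m ^ 2 := by
      rw [le_div_iff₀ (by positivity)]
      have h6 : 0 ≤ ((P.n (2 * j) : ℝ) + 1) ^ (2 * P.m (2 * j + 1)) := by positivity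
      have h7 : 0 ≤ m ^ 2 * ((P.n (2 * j) : ℝ) + 1) ^ (2 * P.m (2 * j + 1)) := by positivity
      nlinarith
    have hsum : 24 / m ^ 2 * n + 12 * n / m ^ 2 + 9 * n / m ^ 2 ≤ 48 * n / m ^ 2 := by
      have : 24 / m ^ 2 * n + 12 * n / m ^ 2 + 9 * n / m ^ 2 = 45 * n / m ^ 2 := by
        field_simp; ring
      rw [this]
      gcongr
      norm_num
    have hm0 : (0:ℝ) < m := by linarith
    linarith
  · intro I hI t ht g hg
    rcases Nat.lt_or_ge (2 * j + 1) t with h | h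
    · exact h2 P j y f q hdep I hI t (by omega) g hg
    · obtain rfl : t = 2 * j + 1 := by omega
      exact h1 P j y f q hdep I hI g hg

end Pool.Agent.W586.GZ
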