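import Pool.Agent.W586.GZ.Stm

set_option autoImplicit false

namespace Pool.Agent.W586.GZ

theorem kk (hSTAR : S_STAR) (hPAIR : S_PAIR) (hDSEQ : S_DSEQ) (hDEP : S_DEP) (hBLK : S_BLK) :
    S_K := by
  intro P t C hdiag hCB ε hε
  by_contra hcon
  push Not at hcon
  have hsup : Supply P t (ε / 8) := by
    apply hSTAR P t C ε hdiag hCB hε
    intro N0
    obtain ⟨N, hN, y, F, h1, h2, h3⟩ := hcon N0
    exact ⟨N, y, F, hN, h1, h2, h3⟩
  have hpair := hPAIR P t (ε / 8) hsup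
  have key : ∀ j : ℕ, (ε / 8) * (P.m (2 * j + 1) : ℝ) ≤ 48 * C := by
    intro j
    obtain ⟨y, f, q, κ, M, hdep, hle⟩ := hDSEQ P t (ε / 8) (by positivity) hpair j
    have hF : ((P.m (2 * j + 1) : ℚ)⁻¹) • ∑ i ∈ Finset.range (P.n (2 * j + 1)), f i ∈ WW P :=
      ⟨_, W.odd j _ f q le_rfl hdep.fw hdep.fs hdep.qj hdep.qm hdep.tau⟩
    have hNB := hDEP P j y f q hdep
    have hcb := (hBLK _ (WW_idl P) t C κ hCB).2 (Finset.range M) _ _ hNB _ hF
    have hm := P.mpos' (2 * j + 1)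
    have hn : (0 : ℝ) < P.n (2 * j + 1) := by
      have : 2 * j + 1 ≤ P.n (2 * j + 1) := P.nlt.le_apply
      exact_mod_cast (by omega : 0 < P.n (2 * j + 1))
    have h1 := hle.trans hcb
    rw [div_le_iff₀ hm] at h1
    have h2 : C * (48 * (P.n (2 * j + 1) : ℝ) / (P.m (2 * j + 1) : ℝ) ^ 2) * P.m (2 * j + 1)
        = 48 * C * P.n (2 * j + 1) / P.m (2 * j + 1) := by
      field_simp
    rw [h2, le_div_iff₀ hm] at h1
    have h3 : (P.n (2 * j + 1) : ℝ) * (ε / 8 * P.m (2 * j + 1)) ≤ P.n (2 * j + 1) * (48 * C) := by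
      linarith
    exact le_of_mul_le_mul_left h3 hn
  obtain ⟨j, hj⟩ := exists_nat_gt (48 * C / (ε / 8))
  have h1 := key j
  have h2 : j ≤ P.m (2 * j + 1) := by
    have : 2 * j + 1 ≤ P.m (2 * j + 1) := P.mlt.le_apply
    omega
  have h3 : (j : ℝ) ≤ P.m (2 * j + 1) := by exact_mod_cast h2
  rw [div_lt_iff₀ (by positivity)] at hj
  nlinarith

end Pool.Agent.W586.GZ
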