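import Pool.Agent.W586.GZ.Stm

set_option autoImplicit false

namespace Pool.Agent.W586.GZ

/-- norm one vectors with odd support -/
lemma NB_WX_odd (P : Par) (x : ℕ → ℝ) (c : ℝ) (hc : 0 ≤ c) (he : ∀ n, Even n → x n = 0)
    (hx : ∀ n, |x n| ≤ c) : NB (WX P) x c := by
  rw [NB_WX]
  refine ⟨?_, fun n _ => hx n⟩
  intro f hf
  have h0 : cut {n | Even n} x = fun _ => 0 := by
    funext n
    unfold cut
    by_cases h : n ∈ {n : ℕ | Even n}
    · rw [Set.indicator_of_mem h]; exact he n h
    · rw [Set.indicator_of_notMem h]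
  rw [h0, ev_zero_right]
  exact hc

lemma cut_even_NB (P : Par) (x : ℕ → ℝ) (c : ℝ) (h : NB (WW P) x c) :
    NB (WX P) (cut {n | Even n} x) c := by
  have hc := h.nonneg (WW_idl P)
  rw [NB_WX]
  refine ⟨(h.cut (WW_idl P) _).cut (WW_idl P) _, ?_⟩
  intro n hn
  unfold cut
  rw [Set.indicator_of_notMem (by simpa using hn), abs_zero]
  exact hc

theorem shrw (hSHRA : S_SHRA) : S_SHRW := by
  classical
  intro P γ G hG ε hε
  have hWX := WX_idl P
  have hWW := WW_idl P
  have hG0 : 0 ≤ G := by
    have := hG ∅ (fun _ => 0) (by simp) (fun f _ => by rw [ev_zero_right]; norm_num)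
    simpa using this
  -- odd part: sums of |γ| are bounded
  have hodd : ∀ s : Finset ℕ, (∀ n ∈ s, Odd n) → ∑ n ∈ s, |γ n| ≤ G := by
    intro s hs
    have h1 := hG s (fun n => if n ∈ s then (if 0 ≤ γ n then 1 else -1) else 0) (by
      intro n hn; by_contra h; exact hn (by simp [h])) (by
      apply NB_WX_odd P _ 1 (by norm_num)
      · intro n hn
        have : n ∉ s := fun h => by
          have := hs n h
          exact (Nat.not_odd_iff_even.mpr hn) this
        simp [this]
      · intro n
        by_cases h1 : n ∈ s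
        · by_cases h2 : 0 ≤ γ n
          · simp [h1, h2]
          · simp [h1, h2]
        · simp [h1])
    refine le_trans (le_of_eq ?_) ((le_abs_self _).trans h1)
    apply Finset.sum_congr rfl
    intro n hn
    simp only [hn, if_true]
    split_ifs with h
    · rw [abs_of_nonneg h, mul_one]
    · rw [abs_of_neg (by linarith)]; ring
  -- choose a finite set of odd numbers with almost maximal sum
  set g : ℕ → ℝ := fun n => if Odd n then |γ n| else 0 with hg
  have hgsum : Summable g := by
    apply summable_of_sum_le (c := G)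
    · intro n; simp only [hg]; split_ifs <;> positivity
    · intro u
      have h1 : ∑ x ∈ u, g x = ∑ x ∈ u.filter Odd, |γ x| := by
        rw [Finset.sum_filter]
      rw [h1]
      exact hodd _ (fun n hn => (Finset.mem_filter.mp hn).2)
  obtain ⟨u0, hu0⟩ := summable_iff_vanishing_norm.mp hgsum (ε / 2) (by positivity)
  set M1 : ℕ := u0.sup id + 1 with hM1
  have htail : ∀ s : Finset ℕ, (∀ n ∈ s, M1 ≤ n) → ∑ n ∈ s, g n ≤ ε / 2 := by
    intro s hs
    have hdis : Disjoint s u0 := by
      rw [Finset.disjoint_left]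
      intro n hn hn0
      have h1 : n ≤ u0.sup id := Finset.le_sup (f := id) hn0
      have h2 := hs n hn
      omega
    have := hu0 s hdis
    have h3 : ∑ n ∈ s, g n ≤ ‖∑ n ∈ s, g n‖ := Real.le_norm_self _
    linarith
  -- even part
  set γ' : ℕ → ℝ := fun n => if Even n then γ n else 0 with hγ'
  have hγ'sum : ∀ (s : Finset ℕ) (x : ℕ → ℝ), ∑ n ∈ s, γ' n * x n
      = ∑ n ∈ s, γ n * cut {n | Even n} x n := by
    intro s x
    apply Finset.sum_congr rfl
    intro n _
    unfold cut
    simp only [hγ']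
    by_cases h : Even n
    · rw [if_pos h, Set.indicator_of_mem (by exact h)]
    · rw [if_neg h, Set.indicator_of_notMem (by exact h)]; simp
  have hG' : ∀ (s : Finset ℕ) (x : ℕ → ℝ), (∀ n, x n ≠ 0 → n ∈ s) → NB (WW P) x 1 →
      |∑ n ∈ s, γ' n * x n| ≤ G := by
    intro s x hx hNB
    rw [hγ'sum]
    apply hG s _ _ (cut_even_NB P x 1 hNB)
    intro n hn
    apply hx
    intro hc
    apply hn
    unfold cut
    by_cases h : n ∈ {n : ℕ | Even n}
    · rw [Set.indicator_of_mem h, hc]
    · rw [Set.indicator_of_notMem h]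
  obtain ⟨N0, hN0⟩ := hSHRA P γ' G hG' (ε / 4) (by positivity)
  have heven : ∃ M2 : ℕ, ∀ (s : Finset ℕ) (x : ℕ → ℝ), (∀ n, x n ≠ 0 → n ∈ s) →
      (∀ n ∈ s, M2 ≤ n) → NB (WX P) x 1 → |∑ n ∈ s, γ' n * x n| ≤ ε / 2 := by
    by_contra hcon
    push Not at hcon
    -- normalised form of the failure
    have hstep : ∀ M : ℕ, ∃ (s : Finset ℕ) (x : ℕ → ℝ), (∀ n, x n ≠ 0 → n ∈ s) ∧
        (∀ n ∈ s, M ≤ n) ∧ NB (WW P) x 1 ∧ ε / 2 < ∑ n ∈ s, γ' n * x n := by
      intro M
      obtain ⟨s, x, h1, h2, h3, h4⟩ := hcon M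
      have hxe : NB (WW P) (cut {n | Even n} x) 1 := ((NB_WX P x 1).mp h3).1
      have hsup : ∀ n, cut {n | Even n} x n ≠ 0 → n ∈ s := by
        intro n hn
        apply h1
        intro hc
        apply hn
        unfold cut
        by_cases h : n ∈ {n : ℕ | Even n}
        · rw [Set.indicator_of_mem h, hc]
        · rw [Set.indicator_of_notMem h]
      have heq : ∑ n ∈ s, γ' n * cut {n | Even n} x n = ∑ n ∈ s, γ' n * x n := by
        rw [hγ'sum, hγ'sum]
        apply Finset.sum_congr rfl
        intro n _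
        unfold cut
        rw [Set.indicator_indicator, Set.inter_self]
      rcases le_or_gt 0 (∑ n ∈ s, γ' n * x n) with h | h
      · refine ⟨s, _, hsup, h2, hxe, ?_⟩
        rw [heq]; rwa [abs_of_nonneg h] at h4
      · refine ⟨s, fun n => (-1) * cut {n | Even n} x n, ?_, h2, ?_, ?_⟩
        · intro n hn
          apply hsup
          intro hc; apply hn; simp [hc]
        · have := hxe.smul (-1)
          simpa using this
        · have e1 : ∑ n ∈ s, γ' n * ((-1) * cut {n | Even n} x n)
              = -∑ n ∈ s, γ' n * cut {n | Even n} x n := by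
            rw [← Finset.sum_neg_distrib]
            apply Finset.sum_congr rfl
            intro n _; ring
          rw [e1, heq]
          rwa [abs_of_neg h] at h4
    choose S X hX1 hX2 hX3 hX4 using hstep
    -- successive choice
    let nxt : ℕ → ℕ := fun M => max (M + 1) ((S M).sup id + 1)
    let Mseq : ℕ → ℕ := fun i => Nat.rec 0 (fun _ M => nxt M) i
    have hMs : ∀ i, Mseq (i + 1) = nxt (Mseq i) := fun i => rfl
    have hMlt : StrictMono Mseq := by
      apply strictMono_nat_of_lt_succ
      intro i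
      rw [hMs]
      have := le_max_left (Mseq i + 1) ((S (Mseq i)).sup id + 1)
      simp only [nxt]; omega
    have hMid : ∀ i, i ≤ Mseq i := fun i => hMlt.le_apply
    have hsupp : ∀ i n, X (Mseq i) n ≠ 0 → Mseq i ≤ n ∧ n < Mseq (i + 1) := by
      intro i n hn
      have h1 := hX1 _ n hn
      refine ⟨hX2 _ n h1, ?_⟩
      rw [hMs]
      have h2 : n ≤ (S (Mseq i)).sup id := Finset.le_sup (f := id) h1
      have := le_max_right (Mseq i + 1) ((S (Mseq i)).sup id + 1)
      simp only [nxt]; omega
    set N := max N0 1 with hNdef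
    have hN1 : 1 ≤ N := le_max_right _ _
    have hNpos : (0 : ℝ) < N := by exact_mod_cast hN1
    set y : ℕ → ℝ := fun n => (∑ i ∈ Finset.range N, X (Mseq (N + i)) n) / N with hy
    set s : Finset ℕ := Finset.range (Mseq (N + N)) with hs
    have hXs : ∀ i, i < N → ∀ n, X (Mseq (N + i)) n ≠ 0 → n ∈ s := by
      intro i hi n hn
      rw [hs, Finset.mem_range]
      exact lt_of_lt_of_le (hsupp _ n hn).2 (hMlt.monotone (show N + i + 1 ≤ N + N by omega))
    have hsumX : ∀ i, i < N → ∑ n ∈ s, γ' n * X (Mseq (N + i)) n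
        = ∑ n ∈ S (Mseq (N + i)), γ' n * X (Mseq (N + i)) n := by
      intro i hi
      have e1 : ∑ n ∈ s, γ' n * X (Mseq (N + i)) n
          = ∑ n ∈ s ∪ S (Mseq (N + i)), γ' n * X (Mseq (N + i)) n := by
        apply Finset.sum_subset Finset.subset_union_left
        intro n _ hn
        have : X (Mseq (N + i)) n = 0 := by by_contra hc; exact hn (hXs i hi n hc)
        rw [this, mul_zero]
      have e2 : ∑ n ∈ S (Mseq (N + i)), γ' n * X (Mseq (N + i)) n
          = ∑ n ∈ s ∪ S (Mseq (N + i)), γ' n * X (Mseq (N + i)) n := by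
        apply Finset.sum_subset Finset.subset_union_right
        intro n _ hn
        have : X (Mseq (N + i)) n = 0 := by by_contra hc; exact hn (hX1 _ n hc)
        rw [this, mul_zero]
      rw [e1, e2]
    have hyne : ∀ n, y n ≠ 0 → ∃ i, i < N ∧ X (Mseq (N + i)) n ≠ 0 := by
      intro n hn
      by_contra hc
      push Not at hc
      apply hn
      simp only [hy]
      rw [Finset.sum_eq_zero (fun i hi => hc i (Finset.mem_range.mp hi)), zero_div]
    have hAvg : Avg P N y := by
      refine ⟨hN1, ?_, fun i => X (Mseq (N + i)), ?_, ?_, fun n => rfl⟩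
      · intro n hn
        obtain ⟨i, _, h2⟩ := hyne n hn
        have h3 := (hsupp _ n h2).1
        have h4 := hMid (N + i)
        omega
      · intro i _
        exact (hX3 _).mono (by norm_num)
      · intro i l hil _ p q hp hq
        have h1 := (hsupp _ p hp).2
        have h2 := (hsupp _ q hq).1
        have h3 : Mseq (N + i + 1) ≤ Mseq (N + l) := hMlt.monotone (show N + i + 1 ≤ N + l by omega)
        omega
    have hfin := hN0 N (le_max_left _ _) y s hAvg (by
      intro n hn
      obtain ⟨i, h1, h2⟩ := hyne n hn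
      exact hXs i h1 n h2)
    have hval : ∑ n ∈ s, γ' n * y n
        = (∑ i ∈ Finset.range N, ∑ n ∈ S (Mseq (N + i)), γ' n * X (Mseq (N + i)) n) / N := by
      have e1 : ∀ n, γ' n * y n = (∑ i ∈ Finset.range N, γ' n * X (Mseq (N + i)) n) / N := by
        intro n
        simp only [hy]
        rw [← mul_div_assoc, Finset.mul_sum]
      rw [Finset.sum_congr rfl (fun n _ => e1 n), ← Finset.sum_div, Finset.sum_comm]
      congr 1
      apply Finset.sum_congr rfl
      intro i hi
      exact hsumX i (Finset.mem_range.mp hi)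
    have hlow : ε / 2 ≤ ∑ n ∈ s, γ' n * y n := by
      rw [hval, le_div_iff₀ hNpos]
      have : ∑ i ∈ Finset.range N, ε / 2
          ≤ ∑ i ∈ Finset.range N, ∑ n ∈ S (Mseq (N + i)), γ' n * X (Mseq (N + i)) n :=
        Finset.sum_le_sum (fun i _ => (hX4 _).le)
      rw [Finset.sum_const, Finset.card_range, nsmul_eq_mul] at this
      linarith
    have := (le_abs_self _).trans hfin
    linarith
  obtain ⟨M2, hM2⟩ := heven
  refine ⟨max M1 M2, ?_⟩
  intro s x hx hs hNB
  have h1 := hM2 s x hx (fun n hn => le_trans (le_max_right _ _) (hs n hn)) hNB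
  have h2 := htail s (fun n hn => le_trans (le_max_left _ _) (hs n hn))
  have hsplit : ∑ n ∈ s, γ n * x n = ∑ n ∈ s, γ' n * x n
      + ∑ n ∈ s, (if Odd n then γ n else 0) * x n := by
    rw [← Finset.sum_add_distrib]
    apply Finset.sum_congr rfl
    intro n _
    simp only [hγ']
    rcases Nat.even_or_odd n with h | h
    · rw [if_pos h, if_neg (Nat.not_odd_iff_even.mpr h)]; ring
    · rw [if_neg (Nat.not_even_iff_odd.mpr h), if_pos h]; ring
  rw [hsplit]
  have h3 : |∑ n ∈ s, (if Odd n then γ n else 0) * x n| ≤ ∑ n ∈ s, g n := by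
    refine (Finset.abs_sum_le_sum_abs _ _).trans (Finset.sum_le_sum ?_)
    intro n _
    simp only [hg]
    split_ifs with h
    · rw [abs_mul]
      have := hNB.coord hWX n
      nlinarith [abs_nonneg (γ n), abs_nonneg (x n)]
    · simp
  have h4 := abs_add_le (∑ n ∈ s, γ' n * x n) (∑ n ∈ s, (if Odd n then γ n else 0) * x n)
  linarith

end Pool.Agent.W586.GZ
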