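import Pool.Agent.W586.GZ.Stm

set_option autoImplicit false

namespace Pool.Agent.W586.GZ

theorem star (hAVG : S_AVG) (hSHRA : S_SHRA) (hCUTM : S_CUTM) : S_STAR := by
  classical
  intro P t C ε hdiag hCB hε hfail N0 M0
  have hW := WW_idl P
  -- rows
  have hrow : ∀ i : ℕ, ∃ Ni : ℕ, ∀ N, Ni ≤ N → ∀ (y : ℕ → ℝ) (s : Finset ℕ), Avg P N y →
      (∀ n, y n ≠ 0 → n ∈ s) → |∑ n ∈ s, t i n * y n| ≤ ε / (2 * (M0 + 1)) := by
    intro i
    apply hSHRA P (fun n => t i n) C _ _ (by positivity)
    intro s x hx hNB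
    have h1 := (hCB.2 (insert i s) x 1 hNB).coord hW i
    rw [mv_apply_of_mem _ _ _ _ (Finset.mem_insert_self i s), mul_one] at h1
    have h2 : ∑ j ∈ insert i s, t i j * x j = ∑ j ∈ s, t i j * x j := by
      symm
      apply Finset.sum_subset (Finset.subset_insert i s)
      intro j _ hj
      have : x j = 0 := by by_contra h; exact hj (hx j h)
      rw [this, mul_zero]
    rwa [h2] at h1
  choose Ni hNi using hrow
  obtain ⟨N, y, F, hN, hy, hyF, hnot⟩ := hfail (max (max N0 M0) ((Finset.range M0).sup Ni))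
  have hN0 : N0 ≤ N := le_trans (le_trans (le_max_left _ _) (le_max_left _ _)) hN
  have hM0 : M0 ≤ N := le_trans (le_trans (le_max_right _ _) (le_max_left _ _)) hN
  have hNiN : ∀ i, i < M0 → Ni i ≤ N := fun i hi =>
    le_trans (Finset.le_sup (f := Ni) (Finset.mem_range.mpr hi)) (le_trans (le_max_right _ _) hN)
  unfold NB at hnot
  push Not at hnot
  obtain ⟨f, hf, hfe⟩ := hnot
  set M1 : ℕ := max M0 (F.sup id) + 1 with hM1
  have hFM1 : ∀ n ∈ F, n < M1 := by
    intro n hn
    have : n ≤ F.sup id := Finset.le_sup (f := id) hn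
    have := le_max_right M0 (F.sup id)
    omega
  have hM01 : M0 < M1 := by
    have := le_max_left M0 (F.sup id)
    omega
  have hyN : ∀ n, y n ≠ 0 → N ≤ n := hy.2.1
  have hyG : ∀ n, y n ≠ 0 → M0 ≤ n ∧ n < M1 := fun n hn =>
    ⟨le_trans hM0 (hyN n hn), hFM1 n (hyF n hn)⟩
  set G : Finset ℕ := Finset.Ico M0 M1 with hG
  -- split off the small rows
  have hfnn := hW.nn f hf
  set A0 : Set ℕ := {i | i < M0} with hA0
  set z := mv t F y with hz
  have hsplit : ev f z ≤ ev f (cut A0 z) + ev f (cut A0ᶜ z) := by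
    refine le_trans (le_of_eq ?_) (ev_add_right f hfnn _ _)
    apply ev_congr
    intro n _
    unfold cut
    congr 1
    by_cases h : n ∈ A0
    · simp [h]
    · simp [h]
  have hsmall : ev f (cut A0 z) ≤ ε / 2 := by
    have h1 := NB.of_l1 hW (x := cut A0 z) (Finset.range M0) (by
      intro i hi
      rw [Finset.mem_range]
      by_contra hc
      exact hi (by unfold cut; rw [Set.indicator_of_notMem (by simpa [hA0] using hc)])) f hf
    refine h1.trans ?_
    have h2 : ∑ i ∈ Finset.range M0, |cut A0 z i| ≤ ∑ i ∈ Finset.range M0, ε / (2 * (M0 + 1)) := by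
      apply Finset.sum_le_sum
      intro i hi
      have hi' := Finset.mem_range.mp hi
      unfold cut
      rw [Set.indicator_of_mem (by simpa [hA0] using hi')]
      by_cases hiF : i ∈ F
      · rw [hz, mv_apply_of_mem _ _ _ _ hiF]
        exact hNi i N (hNiN i hi') y F hy hyF
      · rw [hz, mv_apply_of_notMem _ _ _ _ hiF, abs_zero]
        positivity
    refine h2.trans ?_
    rw [Finset.sum_const, Finset.card_range, nsmul_eq_mul]
    have h3 : (0:ℝ) < 2 * (M0 + 1) := by positivity
    rw [← mul_div_assoc, div_le_iff₀ h3]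
    nlinarith
  have hbig : ε / 2 ≤ ev f (cut A0ᶜ z) := by linarith
  set A1 : Set ℕ := {i | i ∈ F ∧ M0 ≤ i} with hA1
  set f' := rs f A1 with hf'
  have hf'W : f' ∈ WW P := hW.re f hf A1
  have hf'nn := hW.nn f' hf'W
  have hf'G : ∀ n, f' n ≠ 0 → n ∈ G := by
    intro n hn
    have := (rs_ne f A1 n hn).1
    rw [hG, Finset.mem_Ico]
    exact ⟨this.2, hFM1 n this.1⟩
  have hf'big : ε / 2 ≤ ev f' (mv t G y) := by
    refine hbig.trans (le_of_eq ?_)
    rw [hf', ev_rs]
    apply ev_congr
    intro n _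
    unfold cut
    by_cases h : n ∈ A1
    · rw [Set.indicator_of_mem h, Set.indicator_of_mem (by
        simp only [hA0, Set.mem_compl_iff, Set.mem_ofPred_eq]; have := h.2; omega)]
      have hnG : n ∈ G := by rw [hG, Finset.mem_Ico]; exact ⟨h.2, hFM1 n h.1⟩
      rw [hz, mv_apply_of_mem _ _ _ _ h.1, mv_apply_of_mem _ _ _ _ hnG]
      have e1 : ∑ j ∈ F, t n j * y j = ∑ j ∈ F ∪ G, t n j * y j := by
        apply Finset.sum_subset Finset.subset_union_left
        intro j _ hj
        have : y j = 0 := by by_contra hc; exact hj (hyF j hc)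
        rw [this, mul_zero]
      have e2 : ∑ j ∈ G, t n j * y j = ∑ j ∈ F ∪ G, t n j * y j := by
        apply Finset.sum_subset Finset.subset_union_right
        intro j _ hj
        have : y j = 0 := by
          by_contra hc
          exact hj (by rw [hG, Finset.mem_Ico]; exact hyG j hc)
        rw [this, mul_zero]
      rw [e1, e2]
    · rw [Set.indicator_of_notMem h]
      by_cases h2 : n ∈ A0ᶜ
      · rw [Set.indicator_of_mem h2]
        have hnF : n ∉ F := by
          intro hc
          apply h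
          refine ⟨hc, ?_⟩
          simp only [hA0, Set.mem_compl_iff, Set.mem_ofPred_eq] at h2
          omega
        rw [hz, mv_apply_of_notMem _ _ _ _ hnF]
      · rw [Set.indicator_of_notMem h2]
  -- signs
  set sg : ℕ → ℝ := fun i => if 0 ≤ ∑ j ∈ G, t i j * y j then 1 else -1 with hsg
  have hsgabs : ∀ i, |sg i| = 1 := by
    intro i; simp only [hsg]; split_ifs <;> simp
  have hsgmul : ∀ i, sg i * ∑ j ∈ G, t i j * y j = |∑ j ∈ G, t i j * y j| := by
    intro i; simp only [hsg]
    split_ifs with h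
    · rw [abs_of_nonneg h, one_mul]
    · rw [abs_of_neg (by linarith)]; ring
  obtain ⟨A, hAG, hA⟩ := hCUTM G (fun i j => (f' i : ℝ) * sg i * (t i j * y j))
    (fun i => by simp [hdiag])
  have htot : ∑ i ∈ G, ∑ j ∈ G, (f' i : ℝ) * sg i * (t i j * y j) = ev f' (mv t G y) := by
    rw [ev_eq_sum f' _ G hf'G]
    apply Finset.sum_congr rfl
    intro i hi
    rw [mv_apply_of_mem _ _ _ _ hi, ← hsgmul i, ← Finset.mul_sum]
    ring
  rw [htot] at hA
  refine ⟨N, M1, cut (↑A) y, rs f' (↑(G \ A)), hN0, hM01, (hAVG P N y hy).2.2 _, ?_, 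
    hW.re f' hf'W _, ?_, ?_, ?_⟩
  · intro n hn
    apply hyG
    intro hc
    apply hn
    unfold cut
    by_cases h : n ∈ (↑A : Set ℕ)
    · rw [Set.indicator_of_mem h, hc]
    · rw [Set.indicator_of_notMem h]
  · intro n hn
    have := (rs_ne f' _ n hn).2
    have := hf'G n this
    rwa [hG, Finset.mem_Ico] at this
  · intro n hn
    have h1 := (rs_ne f' _ n hn).1
    have h2 : n ∉ A := by
      have := Finset.mem_coe.mp h1
      exact (Finset.mem_sdiff.mp this).2
    unfold cut
    rw [Set.indicator_of_notMem (by simpa using h2)]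
  · have h1 : ε / 8 ≤ ∑ i ∈ G \ A, ∑ j ∈ A, (f' i : ℝ) * sg i * (t i j * y j) := by
      linarith
    refine h1.trans ?_
    rw [ev_eq_sum (rs f' (↑(G \ A))) _ (G \ A) (by
      intro i hi
      exact Finset.mem_coe.mp (rs_ne f' _ i hi).1)]
    apply Finset.sum_le_sum
    intro i hi
    have hiG := (Finset.mem_sdiff.mp hi).1
    rw [rs_apply_of_mem _ _ _ (Finset.mem_coe.mpr hi), mv_apply_of_mem _ _ _ _ hiG]
    have e1 : ∑ j ∈ G, t i j * cut (↑A) y j = ∑ j ∈ A, t i j * y j := by
      symm
      refine (Finset.sum_congr rfl ?_).trans (Finset.sum_subset hAG ?_)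
      · intro j hj
        unfold cut
        rw [Set.indicator_of_mem (Finset.mem_coe.mpr hj)]
      · intro j _ hj
        unfold cut
        rw [Set.indicator_of_notMem (by simpa using hj), mul_zero]
    rw [e1, ← Finset.mul_sum, mul_assoc]
    apply mul_le_mul_of_nonneg_left _ (by exact_mod_cast hf'nn i)
    calc sg i * ∑ j ∈ A, t i j * y j ≤ |sg i * ∑ j ∈ A, t i j * y j| := le_abs_self _
      _ = |∑ j ∈ A, t i j * y j| := by rw [abs_mul, hsgabs, one_mul]

end Pool.Agent.W586.GZ
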