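import Pool.Agent.W395.GZ.PARX
import Pool.Agent.W174.GZ.Rec2
import Pool.Agent.W177.GZ.RISH
import Pool.Agent.W366.GZ.AVG
import Pool.Agent.W916.GZ.SEL
import Pool.Agent.W138.GZ.CUTM
import Pool.Agent.W54.GZ.PAIR
import Pool.Agent.W605.GZ.DSEQ
import Pool.Agent.W701.GZ.Deph2
import Pool.Agent.W293.GZB.Blk
import Pool.Agent.W797.GZ.JAMES
import Pool.Agent.W699.GZ.L1
import Pool.Agent.W18.GZ.BAN
import Pool.Agent.W692.GZ.Ext
import Pool.Agent.W705.GZ.MULT
import Pool.Agent.W692.GZ.MatX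
import Pool.Agent.W91.GZ.INV
import Pool.Agent.W250.GZ.ShrX
import Pool.Agent.W849.GZ.SPARSE
import Pool.Agent.W465.GZ.LowB
import Pool.Agent.W935.GZ.Low
import Pool.Agent.W683.GZ.Fact
import Pool.Agent.W61.GZ.C3
import Pool.Agent.W883.GZ.FIN
import Pool.Agent.W378.GZ.GLIDE
import Pool.Agent.W378.GZ.C2
import Pool.Agent.W800.GZ.REC1
import Pool.Agent.W800.GZ.EXV
import Pool.Agent.W800.GZ.ABS
import Pool.Agent.W153.GZ.Shra
import Pool.Agent.W891.GZ.DEPH1
import Pool.Agent.W586.GZ.COMB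
import Pool.Agent.W586.GZ.KK
import Pool.Agent.W586.GZ.DEP
import Pool.Agent.W586.GZ.STAR
import Pool.Agent.W586.GZ.SHRW

set_option autoImplicit false

namespace Pool.Agent.W586.GZ

theorem rec1 : S_REC1 := Pool.Agent.W800.GZ.REC1.main comb2
theorem rec2 : S_REC2 := Pool.Agent.W174.GZ.Rec2.main comb2 rec1
theorem exv : S_EXV := Pool.Agent.W800.GZ.EXV.main rec1 rec2 Pool.Agent.W177.GZ.RISH.main
theorem avg : S_AVG := Pool.Agent.W366.GZ.AVG.main comb1
theorem sel : S_SEL := Pool.Agent.W916.GZSEL.main avg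
theorem shra : S_SHRA := Pool.Agent.W153.GZ.Shra.main avg sel exv
theorem depAll : S_DEP := dep rec1 Pool.Agent.W891.GZ.main Pool.Agent.W701.GZ.main
theorem pair : S_PAIR := Pool.Agent.W54.GZ.main sel exv
theorem starAll : S_STAR := star avg shra Pool.Agent.W138.GZ.main
theorem shrwAll : S_SHRW := shrw shra
theorem kAll : S_K :=
  kk starAll pair Pool.Agent.W605.GZ.DSEQ.main depAll Pool.Agent.W293.GZB.main
theorem l1 : S_L1 := Pool.Agent.W699.GZ.L1.main Pool.Agent.W797.GZ.JAMES.main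
theorem low : S_LOW :=
  Pool.Agent.W935.GZ.main (Pool.Agent.W465.GZ.LowB.main Pool.Agent.W293.GZB.main kAll l1)
theorem mult : S_MULT := Pool.Agent.W705.GZ.MULT.main Pool.Agent.W692.GZ.Ext.main
theorem matx : S_MATX := Pool.Agent.W692.GZ.MatX.main
theorem fact : S_FACT :=
  Pool.Agent.W683.GZF.main matx mult (Pool.Agent.W250.GZShrX.main shrwAll)
    (Pool.Agent.W91.GZ.INV.main matx) Pool.Agent.W849.GZ.SPARSE.main low
    (Pool.Agent.W800.GZ.ABS.main Pool.Agent.W692.GZ.Ext.main)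
theorem c2All : S_C2 :=
  Pool.Agent.W378.GZ.C2.main matx (Pool.Agent.W378.GZ.GLIDE.main shrwAll) kAll l1
theorem c3 : S_C3 := Pool.Agent.W61.GZ.C3.main matx mult c2All

end Pool.Agent.W586.GZ
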