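import Pool.Agent.W586.GZ.Stm

set_option autoImplicit false

namespace Pool.Agent.W586.GZ

lemma ev_eq_zero_of_disj (g : ℕ →₀ ℚ) (x : ℕ → ℝ) (h : ∀ n, g n ≠ 0 → x n = 0) : ev g x = 0 := by
  unfold ev
  apply Finset.sum_eq_zero
  intro n hn
  rw [h n (Finsupp.mem_support_iff.mp hn)]; simp

theorem comb1 : S_COMB1 := by
  classical
  intro d N g z c hc hnn hg hz hle
  set hit : ℕ → ℕ → Prop := fun i r => ∃ n, g r n ≠ 0 ∧ z i n ≠ 0 with hhit
  have hz0 : ∀ i r, ¬ hit i r → ev (g r) (z i) = 0 := by
    intro i r h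
    apply ev_eq_zero_of_disj
    intro n hn
    by_contra hc'
    exact h ⟨n, hn, hc'⟩
  have hchain : ∀ i i' r r', i < i' → i' < N → r < d → r' < d → hit i r → hit i' r' → r ≤ r' := by
    intro i i' r r' h1 h2 h3 h4 ⟨p, hp1, hp2⟩ ⟨p', hp1', hp2'⟩
    by_contra hlt
    push Not at hlt
    have e1 := hz i i' h1 h2 p p' hp2 hp2'
    have e2 := hg r' r hlt h3 p' p hp1' hp1
    omega
  set T := ((Finset.range N ×ˢ Finset.range d).filter (fun x => hit x.1 x.2)) with hT
  have hcard : T.card ≤ N + d := by
    have : T.card ≤ (Finset.range (N + d)).card := by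
      apply Finset.card_le_card_of_injOn (fun x : ℕ × ℕ => x.1 + x.2)
      · intro x hx
        simp only [hT, Finset.coe_filter, Finset.mem_product, Finset.mem_range, Set.mem_setOf_eq] at hx
        simp only [Finset.coe_range, Set.mem_Iio]
        omega
      · rintro ⟨i, r⟩ hx ⟨i', r'⟩ hy hxy
        simp only [hT, Finset.coe_filter, Finset.mem_product, Finset.mem_range,
          Set.mem_setOf_eq] at hx hy
        simp only at hxy
        rcases lt_trichotomy i i' with h | h | h
        · have := hchain i i' r r' h hy.1.1 hx.1.2 hy.1.2 hx.2 hy.2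
          omega
        · subst h
          have : r = r' := by omega
          rw [this]
        · have := hchain i' i r' r h hx.1.1 hy.1.2 hx.1.2 hy.2 hx.2
          omega
    simpa using this
  have h1 : ∑ i ∈ Finset.range N, ∑ r ∈ Finset.range d, ev (g r) (z i)
      = ∑ x ∈ Finset.range N ×ˢ Finset.range d, ev (g x.2) (z x.1) := by
    rw [Finset.sum_product]
  rw [h1]
  have h2 : ∑ x ∈ Finset.range N ×ˢ Finset.range d, ev (g x.2) (z x.1)
      = ∑ x ∈ T, ev (g x.2) (z x.1) := by
    rw [hT, Finset.sum_filter]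
    apply Finset.sum_congr rfl
    intro x _
    split_ifs with h
    · rfl
    · exact hz0 _ _ h
  rw [h2]
  have h3 : ∑ x ∈ T, ev (g x.2) (z x.1) ≤ ∑ x ∈ T, c := by
    apply Finset.sum_le_sum
    intro x hx
    simp only [hT, Finset.mem_filter, Finset.mem_product, Finset.mem_range] at hx
    exact hle _ _ hx.1.1 hx.1.2
  refine h3.trans ?_
  rw [Finset.sum_const, nsmul_eq_mul, mul_comm]
  apply mul_le_mul_of_nonneg_left _ hc
  exact_mod_cast hcard

theorem comb2 : S_COMB2 := by
  classical
  intro d K g v I hnn hg hv hI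
  set hit : ℕ → ℕ → Prop := fun i r => ∃ n, g r n ≠ 0 ∧ v i n ≠ 0 with hhit
  have hchain : ∀ i i' r r', i < i' → i' < K → r < d → r' < d → hit i r → hit i' r' → r ≤ r' := by
    intro i i' r r' h1 h2 h3 h4 ⟨p, hp1, hp2⟩ ⟨p', hp1', hp2'⟩
    by_contra hlt
    push Not at hlt
    have e1 := hv i i' h1 h2 p p' hp2 hp2'
    have e2 := hg r' r hlt h3 p' p hp1' hp1
    omega
  set two : ℕ → Prop := fun i => ∃ r r', r < r' ∧ r' < d ∧ hit i r ∧ hit i r' with htwo
  -- smallest hitting index
  set mn : ℕ → ℕ := fun i => if h : ∃ r, hit i r then Nat.find h else 0 with hmn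
  have hmn_spec : ∀ i r, hit i r → hit i (mn i) ∧ mn i ≤ r := by
    intro i r h
    have hex : ∃ r, hit i r := ⟨r, h⟩
    simp only [hmn, dif_pos hex]
    exact ⟨Nat.find_spec hex, Nat.find_min' hex h⟩
  refine ⟨I.filter two, Finset.filter_subset _ _, ?_, ?_⟩
  · have : (I.filter two).card ≤ (Finset.range d).card := by
      apply Finset.card_le_card_of_injOn mn
      · intro i hi
        simp only [Finset.coe_filter, Set.mem_setOf_eq] at hi
        obtain ⟨_, r, r', h1, h2, h3, _⟩ := hi
        have := (hmn_spec i r h3).2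
        simp only [Finset.coe_range, Set.mem_Iio]
        omega
      · have key : ∀ i i', i ∈ I → i' ∈ I → two i → two i' → i < i' → mn i < mn i' := by
          rintro i i' hi hi' ⟨r, r', h1, h2, h3, h4⟩ ⟨s, s', h5, h6, h7, h8⟩ hlt
          have hm := hmn_spec i r h3
          have hm' := hmn_spec i' s h7
          have h9 := hchain i i' r' (mn i') hlt (Finset.mem_range.mp (hI hi')) h2
            (by omega) h4 hm'.1
          omega
        intro i hi i' hi' heq
        simp only [Finset.coe_filter, Set.mem_setOf_eq] at hi hi'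
        rcases lt_trichotomy i i' with h | h | h
        · have := key i i' hi.1 hi'.1 hi.2 hi'.2 h
          omega
        · exact h
        · have := key i' i hi'.1 hi.1 hi'.2 hi.2 h
          omega
    simpa using this
  · refine ⟨mn, ?_⟩
    intro i hi hiB r hr hne n hgn
    by_contra hvn
    have hh : hit i r := ⟨n, hgn, hvn⟩
    have hm := hmn_spec i r hh
    apply hiB
    rw [Finset.mem_filter]
    exact ⟨hi, mn i, r, by omega, hr, hm.1, hh⟩

end Pool.Agent.W586.GZ
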