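import Mathlib

/-!
Project GZ (MP_18b69d_an, S03946): definitions and the basic tools.
Functionals are nonnegative elements of `ℕ →₀ ℚ`, vectors are functions `ℕ → ℝ`.
-/

set_option autoImplicit false
open Filter Topology

namespace Pool.Agent.W586.GZ

/-- value of the functional `f` at the vector `|x|` -/
noncomputable def ev (f : ℕ →₀ ℚ) (x : ℕ → ℝ) : ℝ := ∑ i ∈ f.support, (f i : ℝ) * |x i|

/-- restriction of a functional to a set of coordinates -/
noncomputable def rs (f : ℕ →₀ ℚ) (A : Set ℕ) : ℕ →₀ ℚ := by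
  classical exact f.filter (fun i => i ∈ A)

/-- restriction of a vector to a set of coordinates -/
noncomputable def cut (A : Set ℕ) (x : ℕ → ℝ) : ℕ → ℝ := A.indicator x

/-- `f` lives strictly to the left of `g` -/
def Lt (f g : ℕ →₀ ℚ) : Prop := ∀ p q, f p ≠ 0 → g q ≠ 0 → p < q

/-- `x` lives strictly to the left of `y` -/
def VLt (x y : ℕ → ℝ) : Prop := ∀ p q, x p ≠ 0 → y q ≠ 0 → p < q

/-- the vector `x` has norm at most `c` with respect to the norming set `S` -/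
def NB (S : Set (ℕ →₀ ℚ)) (x : ℕ → ℝ) (c : ℝ) : Prop := ∀ f ∈ S, ev f x ≤ c

/-- admissible norming sets -/
structure Idl (S : Set (ℕ →₀ ℚ)) : Prop where
  nn : ∀ f ∈ S, ∀ i, 0 ≤ f i
  le : ∀ f ∈ S, ∀ i, f i ≤ 1
  re : ∀ f ∈ S, ∀ A : Set ℕ, rs f A ∈ S
  un : ∀ n : ℕ, Finsupp.single n 1 ∈ S

/-- the compression of the matrix `t` to the finite set `F`, applied to `x` -/
noncomputable def mv (t : ℕ → ℕ → ℝ) (F : Finset ℕ) (x : ℕ → ℝ) : ℕ → ℝ :=
  fun i => if i ∈ F then ∑ j ∈ F, t i j * x j else 0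

/-- all finite compressions of `t` have norm at most `C` -/
def CB (S : Set (ℕ →₀ ℚ)) (t : ℕ → ℕ → ℝ) (C : ℝ) : Prop :=
  0 ≤ C ∧ ∀ (F : Finset ℕ) (x : ℕ → ℝ) (c : ℝ), NB S x c → NB S (mv t F x) (C * c)

/-- block diagonal part with respect to a labelling -/
def blk (κ : ℕ → ℕ) (t : ℕ → ℕ → ℝ) : ℕ → ℕ → ℝ := fun i j => if κ i = κ j then t i j else 0

/-- parameters of the construction -/
structure Par where
  m : ℕ → ℕ
  n : ℕ → ℕ
  tau : ℕ → List (ℕ →₀ ℚ)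
  m0 : 2 ≤ m 0
  mS : ∀ j, m (j + 1) = m j ^ 3
  n0 : 1 ≤ n 0
  nS : ∀ j, m (j + 1) ^ 3 * (n j + 1) ^ (3 * m (j + 1) + 1) ≤ n (j + 1)
  tauI : ∀ (L : List (ℕ →₀ ℚ)) (k : ℕ), ∃ q, k ≤ q ∧ tau q = L

/-- the norming functionals with their weights (`none` is the weight of the unit functionals) -/
inductive W (P : Par) : Option ℕ → (ℕ →₀ ℚ) → Prop
  | unit (n : ℕ) : W P none (Finsupp.single n 1)
  | even (j k : ℕ) (g : ℕ → (ℕ →₀ ℚ)) (w : ℕ → Option ℕ) (hk : k ≤ P.n (2 * j))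
      (hg : ∀ i, i < k → W P (w i) (g i))
      (hs : ∀ i l, i < l → l < k → Lt (g i) (g l)) :
      W P (some (2 * j)) (((P.m (2 * j) : ℚ)⁻¹) • ∑ i ∈ Finset.range k, g i)
  | odd (j k : ℕ) (g : ℕ → (ℕ →₀ ℚ)) (q : ℕ → ℕ) (hk : k ≤ P.n (2 * j + 1))
      (hg : ∀ i, i < k → W P (some (2 * q i)) (g i))
      (hs : ∀ i l, i < l → l < k → Lt (g i) (g l))
      (hq : ∀ i, i < k → j < q i)
      (hqq : ∀ i l, i < l → l < k → q i < q l)
      (ht : ∀ i, i < k → P.tau (q i) = (List.range i).map g) :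
      W P (some (2 * j + 1)) (((P.m (2 * j + 1) : ℚ)⁻¹) • ∑ i ∈ Finset.range k, g i)
  | restr (w : Option ℕ) (f : ℕ →₀ ℚ) (A : Set ℕ) (hf : W P w f) : W P w (rs f A)

/-- all norming functionals -/
def WW (P : Par) : Set (ℕ →₀ ℚ) := {f | ∃ w, W P w f}

/-- the norming set of the space `c_0 + Z`: `Z` lives on the even coordinates, `c_0` on the odd ones -/
def WX (P : Par) : Set (ℕ →₀ ℚ) :=
  {f | f ∈ WW P ∧ ∀ i, f i ≠ 0 → Even i} ∪ {f | ∃ n, Odd n ∧ f = Finsupp.single n 1}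

/-- `y` is an average of `N` successive vectors of norm at most two, and lives on `[N, ∞)` -/
def Avg (P : Par) (N : ℕ) (y : ℕ → ℝ) : Prop :=
  1 ≤ N ∧ (∀ n, y n ≠ 0 → N ≤ n) ∧
    ∃ z : ℕ → ℕ → ℝ, (∀ i, i < N → NB (WW P) (z i) 2) ∧ (∀ i l, i < l → l < N → VLt (z i) (z l)) ∧
      ∀ n, y n = (∑ i ∈ Finset.range N, z i n) / N

/-- rapidly increasing sequences (of length `K`) with the indices `J` -/
structure RIS (P : Par) (K : ℕ) (J : ℕ → ℕ) (x : ℕ → ℕ → ℝ) : Prop where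
  mono : ∀ i l, i < l → l < K → J i < J l
  succ : ∀ i l, i < l → l < K → VLt (x i) (x l)
  r1 : ∀ l, l < K → ∀ t, t < J l → ∀ g, W P (some t) g → ev g (x l) ≤ 4 / P.m t
  r2 : ∀ l, l < K → NB (WW P) (x l) 4
  r3 : ∀ l, l + 1 < K → ∀ t, J (l + 1) ≤ t → ∀ g, W P (some t) g → ev g (x l) ≤ 4 / 2 ^ (l + 1)

/-- exact vectors of index `q` -/
structure Exact (P : Par) (q : ℕ) (y : ℕ → ℝ) : Prop where
  lo : ∀ t, t < 2 * q → ∀ g, W P (some t) g → ev g y ≤ 12 / P.m t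
  all : NB (WW P) y 12
  hi : ∀ t, 2 * q < t → ∀ g, W P (some t) g →
    ev g y ≤ 12 * ((P.m (2 * q) : ℝ) / P.m t + (P.m (2 * q) : ℝ) / P.n (2 * q))

/-- a Banach space with a basis whose norm is given by the norming set `S` -/
structure Model (S : Set (ℕ →₀ ℚ)) (X : Type) [NormedAddCommGroup X] [NormedSpace ℝ X]
    (e : ℕ → X) (e' : ℕ → (X →L[ℝ] ℝ)) : Prop where
  bio : ∀ i j : ℕ, e' i (e j) = if i = j then (1 : ℝ) else 0
  exp : ∀ x : X, Tendsto (fun N : ℕ => ∑ n ∈ Finset.range N, e' n x • e n) atTop (𝓝 x)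
  nrm : ∀ (x : X) (c : ℝ), 0 ≤ c → (‖x‖ ≤ c ↔ NB S (fun n => e' n x) c)

/-! ### Basic tools -/

lemma rs_apply_of_mem (f : ℕ →₀ ℚ) (A : Set ℕ) (i : ℕ) (h : i ∈ A) : rs f A i = f i := by
  classical
  unfold rs; exact Finsupp.filter_apply_pos _ _ h

lemma rs_apply_of_notMem (f : ℕ →₀ ℚ) (A : Set ℕ) (i : ℕ) (h : i ∉ A) : rs f A i = 0 := by
  classical
  unfold rs; exact Finsupp.filter_apply_neg _ _ h

lemma rs_ne (f : ℕ →₀ ℚ) (A : Set ℕ) (i : ℕ) (h : rs f A i ≠ 0) : i ∈ A ∧ f i ≠ 0 := by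
  by_cases hi : i ∈ A
  · exact ⟨hi, by rwa [rs_apply_of_mem f A i hi] at h⟩
  · exact absurd (rs_apply_of_notMem f A i hi) h

lemma rs_rs (f : ℕ →₀ ℚ) (A B : Set ℕ) : rs (rs f A) B = rs f (A ∩ B) := by
  ext i
  by_cases hB : i ∈ B
  · by_cases hA : i ∈ A
    · rw [rs_apply_of_mem _ _ _ hB, rs_apply_of_mem _ _ _ hA, rs_apply_of_mem _ _ i (show i ∈ A ∩ B from ⟨hA, hB⟩)]
    · rw [rs_apply_of_mem _ _ _ hB, rs_apply_of_notMem _ _ _ hA,
        rs_apply_of_notMem _ _ i (show i ∉ A ∩ B from fun h => hA h.1)]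
  · rw [rs_apply_of_notMem _ _ _ hB,
      rs_apply_of_notMem _ _ i (show i ∉ A ∩ B from fun h => hB h.2)]

lemma rs_univ (f : ℕ →₀ ℚ) : rs f Set.univ = f := by
  ext i; exact rs_apply_of_mem _ _ _ (Set.mem_univ i)

lemma rs_eq_self (f : ℕ →₀ ℚ) (A : Set ℕ) (h : ∀ i, f i ≠ 0 → i ∈ A) : rs f A = f := by
  ext i
  by_cases hA : i ∈ A
  · exact rs_apply_of_mem _ _ _ hA
  · rw [rs_apply_of_notMem _ _ _ hA]; by_contra h'; exact hA (h i (Ne.symm h'))

lemma ev_eq_sum (f : ℕ →₀ ℚ) (x : ℕ → ℝ) (s : Finset ℕ) (h : ∀ i, f i ≠ 0 → i ∈ s) :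
    ev f x = ∑ i ∈ s, (f i : ℝ) * |x i| := by
  unfold ev
  apply Finset.sum_subset
  · intro i hi; exact h i (Finsupp.mem_support_iff.mp hi)
  · intro i _ hi
    rw [Finsupp.notMem_support_iff.mp hi]; simp

lemma ev_zero (x : ℕ → ℝ) : ev 0 x = 0 := by simp [ev]

lemma ev_add (f g : ℕ →₀ ℚ) (x : ℕ → ℝ) : ev (f + g) x = ev f x + ev g x := by
  classical
  rw [ev_eq_sum (f + g) x (f.support ∪ g.support), ev_eq_sum f x (f.support ∪ g.support),
    ev_eq_sum g x (f.support ∪ g.support), ← Finset.sum_add_distrib]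
  · apply Finset.sum_congr rfl
    intro i _; rw [Finsupp.add_apply]; push_cast; ring
  · intro i hi; exact Finset.mem_union_right _ (Finsupp.mem_support_iff.mpr hi)
  · intro i hi; exact Finset.mem_union_left _ (Finsupp.mem_support_iff.mpr hi)
  · intro i hi
    by_contra h
    rw [Finset.mem_union, not_or, Finsupp.notMem_support_iff, Finsupp.notMem_support_iff] at h
    exact hi (by rw [Finsupp.add_apply, h.1, h.2, add_zero])

lemma ev_smul (c : ℚ) (f : ℕ →₀ ℚ) (x : ℕ → ℝ) : ev (c • f) x = c * ev f x := by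
  rw [ev_eq_sum (c • f) x f.support, ev_eq_sum f x f.support, Finset.mul_sum]
  · apply Finset.sum_congr rfl
    intro i _; rw [Finsupp.smul_apply, smul_eq_mul]; push_cast; ring
  · intro i hi; exact Finsupp.mem_support_iff.mpr hi
  · intro i hi
    by_contra h
    rw [Finsupp.notMem_support_iff] at h
    exact hi (by rw [Finsupp.smul_apply, h, smul_zero])

lemma ev_sum {ι : Type} (s : Finset ι) (g : ι → (ℕ →₀ ℚ)) (x : ℕ → ℝ) :
    ev (∑ i ∈ s, g i) x = ∑ i ∈ s, ev (g i) x := by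
  classical
  induction s using Finset.induction_on with
  | empty => simp [ev_zero]
  | insert a s ha ih => rw [Finset.sum_insert ha, Finset.sum_insert ha, ev_add, ih]

lemma ev_single (n : ℕ) (x : ℕ → ℝ) : ev (Finsupp.single n 1) x = |x n| := by
  rw [ev_eq_sum _ x {n}]
  · simp
  · intro i hi
    rcases eq_or_ne n i with h | h
    · simp [h]
    · exact absurd (Finsupp.single_eq_of_ne' h) hi

lemma ev_nonneg (f : ℕ →₀ ℚ) (h : ∀ i, 0 ≤ f i) (x : ℕ → ℝ) : 0 ≤ ev f x := by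
  unfold ev
  apply Finset.sum_nonneg
  intro i _
  exact mul_nonneg (by exact_mod_cast h i) (abs_nonneg _)

lemma ev_mono (f : ℕ →₀ ℚ) (h : ∀ i, 0 ≤ f i) (x y : ℕ → ℝ) (hxy : ∀ i, f i ≠ 0 → |x i| ≤ |y i|) :
    ev f x ≤ ev f y := by
  unfold ev
  apply Finset.sum_le_sum
  intro i hi
  exact mul_le_mul_of_nonneg_left (hxy i (Finsupp.mem_support_iff.mp hi)) (by exact_mod_cast h i)

lemma ev_congr (f : ℕ →₀ ℚ) (x y : ℕ → ℝ) (hxy : ∀ i, f i ≠ 0 → |x i| = |y i|) :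
    ev f x = ev f y := by
  unfold ev
  apply Finset.sum_congr rfl
  intro i hi
  rw [hxy i (Finsupp.mem_support_iff.mp hi)]

lemma ev_add_right (f : ℕ →₀ ℚ) (h : ∀ i, 0 ≤ f i) (x y : ℕ → ℝ) :
    ev f (fun n => x n + y n) ≤ ev f x + ev f y := by
  unfold ev
  rw [← Finset.sum_add_distrib]
  apply Finset.sum_le_sum
  intro i _
  rw [← mul_add]
  exact mul_le_mul_of_nonneg_left (abs_add_le _ _) (by exact_mod_cast h i)

lemma ev_smul_right (f : ℕ →₀ ℚ) (c : ℝ) (x : ℕ → ℝ) :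
    ev f (fun n => c * x n) = |c| * ev f x := by
  unfold ev
  rw [Finset.mul_sum]
  apply Finset.sum_congr rfl
  intro i _
  rw [abs_mul]; ring

lemma ev_zero_right (f : ℕ →₀ ℚ) : ev f (fun _ => 0) = 0 := by
  unfold ev; simp

lemma ev_sum_right {ι : Type} (s : Finset ι) (f : ℕ →₀ ℚ) (h : ∀ i, 0 ≤ f i) (x : ι → ℕ → ℝ) :
    ev f (fun n => ∑ i ∈ s, x i n) ≤ ∑ i ∈ s, ev f (x i) := by
  classical
  induction s using Finset.induction_on with
  | empty => simp [ev_zero_right]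
  | insert a s ha ih =>
    have h1 : (fun n => ∑ i ∈ insert a s, x i n) = fun n => x a n + (∑ i ∈ s, x i n) := by
      funext n; exact Finset.sum_insert ha
    rw [h1, Finset.sum_insert ha]
    exact (ev_add_right f h _ _).trans (by gcongr)

lemma ev_rs (f : ℕ →₀ ℚ) (A : Set ℕ) (x : ℕ → ℝ) : ev (rs f A) x = ev f (cut A x) := by
  classical
  have hs : ∀ i, rs f A i ≠ 0 → i ∈ f.support := fun i hi =>
    Finsupp.mem_support_iff.mpr (rs_ne f A i hi).2
  rw [ev_eq_sum (rs f A) x f.support hs]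
  unfold ev cut
  apply Finset.sum_congr rfl
  intro i _
  by_cases hA : i ∈ A
  · rw [rs_apply_of_mem _ _ _ hA, Set.indicator_of_mem hA]
  · rw [rs_apply_of_notMem _ _ _ hA, Set.indicator_of_notMem hA]; simp

lemma ev_rs_le (f : ℕ →₀ ℚ) (h : ∀ i, 0 ≤ f i) (A : Set ℕ) (x : ℕ → ℝ) : ev (rs f A) x ≤ ev f x := by
  rw [ev_rs]
  apply ev_mono f h
  intro i _
  unfold cut
  by_cases hA : i ∈ A
  · rw [Set.indicator_of_mem hA]
  · rw [Set.indicator_of_notMem hA]; simp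

lemma NB.mono {S : Set (ℕ →₀ ℚ)} {x : ℕ → ℝ} {c d : ℝ} (h : NB S x c) (hcd : c ≤ d) : NB S x d :=
  fun f hf => (h f hf).trans hcd

lemma NB.le {S : Set (ℕ →₀ ℚ)} (hS : Idl S) {x y : ℕ → ℝ} {c : ℝ} (h : NB S y c)
    (hxy : ∀ i, |x i| ≤ |y i|) : NB S x c :=
  fun f hf => (ev_mono f (hS.nn f hf) x y (fun i _ => hxy i)).trans (h f hf)

lemma NB.coord {S : Set (ℕ →₀ ℚ)} (hS : Idl S) {x : ℕ → ℝ} {c : ℝ} (h : NB S x c) (n : ℕ) :
    |x n| ≤ c := by
  have := h _ (hS.un n); rwa [ev_single] at this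

lemma NB.nonneg {S : Set (ℕ →₀ ℚ)} (hS : Idl S) {x : ℕ → ℝ} {c : ℝ} (h : NB S x c) : 0 ≤ c :=
  (abs_nonneg _).trans (h.coord hS 0)

lemma NB.add {S : Set (ℕ →₀ ℚ)} (hS : Idl S) {x y : ℕ → ℝ} {c d : ℝ} (hx : NB S x c)
    (hy : NB S y d) : NB S (fun n => x n + y n) (c + d) :=
  fun f hf => (ev_add_right f (hS.nn f hf) x y).trans (add_le_add (hx f hf) (hy f hf))

lemma NB.smul {S : Set (ℕ →₀ ℚ)} {x : ℕ → ℝ} {c : ℝ} (hx : NB S x c) (a : ℝ) :
    NB S (fun n => a * x n) (|a| * c) :=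
  fun f hf => by rw [ev_smul_right]; exact mul_le_mul_of_nonneg_left (hx f hf) (abs_nonneg a)

lemma NB.cut {S : Set (ℕ →₀ ℚ)} (hS : Idl S) {x : ℕ → ℝ} {c : ℝ} (hx : NB S x c) (A : Set ℕ) :
    NB S (cut A x) c :=
  fun f hf => by rw [← ev_rs]; exact hx _ (hS.re f hf A)

lemma NB.sum {ι : Type} {S : Set (ℕ →₀ ℚ)} (hS : Idl S) (s : Finset ι) {x : ι → ℕ → ℝ} {c : ι → ℝ}
    (hx : ∀ i ∈ s, NB S (x i) (c i)) : NB S (fun n => ∑ i ∈ s, x i n) (∑ i ∈ s, c i) :=
  fun f hf => (ev_sum_right s f (hS.nn f hf) x).trans (Finset.sum_le_sum fun i hi => hx i hi f hf)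

/-- a vector with values in `[-1,1]` is bounded by the sum of its coordinates -/
lemma NB.of_l1 {S : Set (ℕ →₀ ℚ)} (hS : Idl S) {x : ℕ → ℝ} (s : Finset ℕ)
    (hx : ∀ i, x i ≠ 0 → i ∈ s) : NB S x (∑ i ∈ s, |x i|) := by
  classical
  intro f hf
  rw [ev_eq_sum f x (f.support ∪ s)
    (fun i hi => Finset.mem_union_left _ (Finsupp.mem_support_iff.mpr hi))]
  have h1 : ∑ i ∈ s, |x i| = ∑ i ∈ f.support ∪ s, |x i| := by
    apply Finset.sum_subset Finset.subset_union_right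
    intro i _ hi
    by_contra h; exact hi (hx i (fun h' => h (by simp [h'])))
  rw [h1]
  apply Finset.sum_le_sum
  intro i _
  have h2 : (f i : ℝ) ≤ 1 := by exact_mod_cast hS.le f hf i
  nlinarith [abs_nonneg (x i)]

/-! ### The set `W` -/

lemma Par.mpos (P : Par) (j : ℕ) : 2 ≤ P.m j := by
  induction j with
  | zero => exact P.m0
  | succ j ih =>
    rw [P.mS]; calc 2 ≤ P.m j := ih
      _ = P.m j ^ 1 := (pow_one _).symm
      _ ≤ P.m j ^ 3 := Nat.pow_le_pow_right (by omega) (by norm_num)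

lemma Par.mpos' (P : Par) (j : ℕ) : (0 : ℝ) < P.m j := by
  have := P.mpos j; exact_mod_cast (by omega : 0 < P.m j)

lemma Par.mposQ (P : Par) (j : ℕ) : (0 : ℚ) < P.m j := by
  have := P.mpos j; exact_mod_cast (by omega : 0 < P.m j)

lemma Par.mlt (P : Par) : StrictMono P.m := by
  apply strictMono_nat_of_lt_succ
  intro j
  rw [P.mS]
  have h := P.mpos j
  calc P.m j = P.m j ^ 1 := (pow_one _).symm
    _ < P.m j ^ 3 := Nat.pow_lt_pow_right (by omega) (by norm_num)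

lemma Par.nlt (P : Par) : StrictMono P.n := by
  apply strictMono_nat_of_lt_succ
  intro j
  have h1 := P.nS j
  have h2 : 1 ≤ P.m (j + 1) ^ 3 := Nat.one_le_pow _ _ (by have := P.mpos (j + 1); omega)
  have h3 : P.n j + 1 ≤ (P.n j + 1) ^ (3 * P.m (j + 1) + 1) := Nat.le_self_pow (by omega) _
  calc P.n j < P.n j + 1 := Nat.lt_succ_self _
    _ ≤ (P.n j + 1) ^ (3 * P.m (j + 1) + 1) := h3
    _ ≤ P.m (j + 1) ^ 3 * (P.n j + 1) ^ (3 * P.m (j + 1) + 1) := Nat.le_mul_of_pos_left _ h2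
    _ ≤ P.n (j + 1) := h1

lemma W.nn {P : Par} {w : Option ℕ} {f : ℕ →₀ ℚ} (h : W P w f) : ∀ i, 0 ≤ f i := by
  induction h with
  | unit n => intro i; rw [Finsupp.single_apply]; split_ifs <;> norm_num
  | even j k g w hk hg hs ih =>
    intro i
    rw [Finsupp.smul_apply, Finsupp.finsetSum_apply, smul_eq_mul]
    exact mul_nonneg (inv_nonneg.mpr (P.mposQ _).le)
      (Finset.sum_nonneg fun l hl => ih l (Finset.mem_range.mp hl) i)
  | odd j k g q hk hg hs hq hqq ht ih =>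
    intro i
    rw [Finsupp.smul_apply, Finsupp.finsetSum_apply, smul_eq_mul]
    exact mul_nonneg (inv_nonneg.mpr (P.mposQ _).le)
      (Finset.sum_nonneg fun l hl => ih l (Finset.mem_range.mp hl) i)
  | restr w f A hf ih =>
    intro i
    by_cases hA : i ∈ A
    · rw [rs_apply_of_mem _ _ _ hA]; exact ih i
    · rw [rs_apply_of_notMem _ _ _ hA]

/-- for a successive family, at each coordinate at most one member is nonzero -/
lemma sum_le_of_succ (k : ℕ) (g : ℕ → (ℕ →₀ ℚ)) (hs : ∀ i l, i < l → l < k → Lt (g i) (g l))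
    (B : ℚ) (hB : 0 ≤ B) (hg : ∀ l, l < k → ∀ i, g l i ≤ B) (i : ℕ) :
    ∑ l ∈ Finset.range k, g l i ≤ B := by
  classical
  by_cases h : ∃ l, l < k ∧ g l i ≠ 0
  · obtain ⟨l, hl, hne⟩ := h
    rw [Finset.sum_eq_single_of_mem l (Finset.mem_range.mpr hl)]
    · exact hg l hl i
    · intro l' hl' hne'
      by_contra hc
      rcases lt_or_gt_of_ne hne' with h1 | h1
      · exact lt_irrefl _ (hs l' l h1 hl i i hc hne)
      · exact lt_irrefl _ (hs l l' h1 (Finset.mem_range.mp hl') i i hne hc)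
  · push Not at h
    rw [Finset.sum_eq_zero]
    · exact hB
    · intro l hl; exact h l (Finset.mem_range.mp hl)

lemma W.le_aux {P : Par} {w : Option ℕ} {f : ℕ →₀ ℚ} (h : W P w f) :
    (∀ i, f i ≤ 1) ∧ ∀ t, w = some t → ∀ i, f i ≤ (P.m t : ℚ)⁻¹ := by
  induction h with
  | unit n =>
    refine ⟨?_, by simp⟩
    intro i; rw [Finsupp.single_apply]; split_ifs <;> norm_num
  | even j k g w hk hg hs ih =>
    have h1 : ∀ i, (((P.m (2 * j) : ℚ)⁻¹) • ∑ i ∈ Finset.range k, g i) i ≤ (P.m (2 * j) : ℚ)⁻¹ := by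
      intro i
      rw [Finsupp.smul_apply, Finsupp.finsetSum_apply, smul_eq_mul]
      have := sum_le_of_succ k g hs 1 (by norm_num) (fun l hl i => (ih l hl).1 i) i
      have h2 := inv_nonneg.mpr (P.mposQ (2 * j)).le
      nlinarith
    refine ⟨fun i => (h1 i).trans ?_, ?_⟩
    · apply inv_le_one_of_one_le₀
      have := P.mpos (2 * j); exact_mod_cast (by omega : 1 ≤ P.m (2 * j))
    · intro t ht i
      obtain rfl : 2 * j = t := by simpa using ht
      exact h1 i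
  | odd j k g q hk hg hs hq hqq ht ih =>
    have h1 : ∀ i, (((P.m (2 * j + 1) : ℚ)⁻¹) • ∑ i ∈ Finset.range k, g i) i
        ≤ (P.m (2 * j + 1) : ℚ)⁻¹ := by
      intro i
      rw [Finsupp.smul_apply, Finsupp.finsetSum_apply, smul_eq_mul]
      have := sum_le_of_succ k g hs 1 (by norm_num) (fun l hl i => (ih l hl).1 i) i
      have h2 := inv_nonneg.mpr (P.mposQ (2 * j + 1)).le
      nlinarith
    refine ⟨fun i => (h1 i).trans ?_, ?_⟩
    · apply inv_le_one_of_one_le₀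
      have := P.mpos (2 * j + 1); exact_mod_cast (by omega : 1 ≤ P.m (2 * j + 1))
    · intro t ht i
      obtain rfl : 2 * j + 1 = t := by simpa using ht
      exact h1 i
  | restr w f A hf ih =>
    have h3 : ∀ i, rs f A i ≤ f i := by
      intro i
      by_cases hA : i ∈ A
      · rw [rs_apply_of_mem _ _ _ hA]
      · rw [rs_apply_of_notMem _ _ _ hA]; exact hf.nn i
    exact ⟨fun i => (h3 i).trans (ih.1 i), fun t ht i => (h3 i).trans (ih.2 t ht i)⟩

lemma W.le_one {P : Par} {w : Option ℕ} {f : ℕ →₀ ℚ} (h : W P w f) (i : ℕ) : f i ≤ 1 :=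
  h.le_aux.1 i

lemma W.le_inv {P : Par} {t : ℕ} {f : ℕ →₀ ℚ} (h : W P (some t) f) (i : ℕ) :
    f i ≤ (P.m t : ℚ)⁻¹ := h.le_aux.2 t rfl i

/-- inversion for functionals with a weight -/
lemma W.inv {P : Par} {t : ℕ} {f : ℕ →₀ ℚ} (h : W P (some t) f) :
    ∃ (k : ℕ) (g : ℕ → (ℕ →₀ ℚ)) (w : ℕ → Option ℕ) (A : Set ℕ), k ≤ P.n t ∧
      (∀ i, i < k → W P (w i) (g i)) ∧ (∀ i l, i < l → l < k → Lt (g i) (g l)) ∧
      f = rs (((P.m t : ℚ)⁻¹) • ∑ i ∈ Finset.range k, g i) A ∧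
      (∀ j, t = 2 * j + 1 → ∃ q : ℕ → ℕ, (∀ i, i < k → w i = some (2 * q i)) ∧
        (∀ i, i < k → j < q i) ∧ (∀ i l, i < l → l < k → q i < q l) ∧
        (∀ i, i < k → P.tau (q i) = (List.range i).map g)) := by
  generalize hw : some t = w at h
  induction h with
  | unit n => exact absurd hw (by simp)
  | even j k g w hk hg hs ih =>
    obtain rfl : t = 2 * j := by simpa using hw
    exact ⟨k, g, w, Set.univ, hk, hg, hs, (rs_univ _).symm, fun j' hj' => by omega⟩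
  | odd j k g q hk hg hs hq hqq ht ih =>
    obtain rfl : t = 2 * j + 1 := by simpa using hw
    refine ⟨k, g, fun i => some (2 * q i), Set.univ, hk, hg, hs, (rs_univ _).symm, ?_⟩
    intro j' hj'
    obtain rfl : j = j' := by omega
    exact ⟨q, fun i _ => rfl, hq, hqq, ht⟩
  | restr w f A hf ih =>
    obtain ⟨k, g, w', B, h1, h2, h3, h4, h5⟩ := ih hw
    refine ⟨k, g, w', B ∩ A, h1, h2, h3, ?_, h5⟩
    rw [h4, rs_rs]

/-- the functionals without weight are the unit functionals (and zero) -/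
lemma W.inv_none {P : Par} {f : ℕ →₀ ℚ} (h : W P none f) :
    f = 0 ∨ ∃ n, f = Finsupp.single n 1 := by
  generalize hw : none = w at h
  induction h with
  | unit n => exact Or.inr ⟨n, rfl⟩
  | even j k g w hk hg hs ih => exact absurd hw (by simp)
  | odd j k g q hk hg hs hq hqq ht ih => exact absurd hw (by simp)
  | restr w f A hf ih =>
    rcases ih hw with rfl | ⟨n, rfl⟩
    · left; ext i
      by_cases hi : i ∈ A
      · rw [rs_apply_of_mem _ _ _ hi]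
      · rw [rs_apply_of_notMem _ _ _ hi]; rfl
    · by_cases hA : n ∈ A
      · refine Or.inr ⟨n, rs_eq_self _ _ ?_⟩
        intro i hi
        rcases eq_or_ne n i with h | h
        · rwa [← h]
        · exact absurd (Finsupp.single_eq_of_ne' h) hi
      · left; ext i
        by_cases hi : i ∈ A
        · rw [rs_apply_of_mem _ _ _ hi]
          exact Finsupp.single_eq_of_ne' (fun h => hA (h ▸ hi))
        · rw [rs_apply_of_notMem _ _ _ hi]; rfl

/-- upper bound for the action of a functional of weight `t` -/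
lemma ev_inv_le {P : Par} {t k : ℕ} {g : ℕ → (ℕ →₀ ℚ)} {w : ℕ → Option ℕ} {A : Set ℕ}
    (hg : ∀ i, i < k → W P (w i) (g i)) (x : ℕ → ℝ) :
    ev (rs (((P.m t : ℚ)⁻¹) • ∑ i ∈ Finset.range k, g i) A) x
      ≤ (∑ i ∈ Finset.range k, ev (g i) x) / P.m t := by
  have h0 : ∀ i, 0 ≤ (((P.m t : ℚ)⁻¹) • ∑ i ∈ Finset.range k, g i) i := by
    intro i
    rw [Finsupp.smul_apply, Finsupp.finsetSum_apply, smul_eq_mul]
    exact mul_nonneg (inv_nonneg.mpr (P.mposQ _).le)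
      (Finset.sum_nonneg fun l hl => (hg l (Finset.mem_range.mp hl)).nn i)
  refine (ev_rs_le _ h0 A x).trans ?_
  rw [ev_smul, ev_sum]
  push_cast
  rw [div_eq_inv_mul]

lemma W.zero (P : Par) (j : ℕ) : W P (some (2 * j)) 0 := by
  have := W.even (P := P) j 0 (fun _ => 0) (fun _ => none) (Nat.zero_le _) (by simp) (by simp)
  simpa using this

lemma WW_idl (P : Par) : Idl (WW P) where
  nn := fun _ ⟨_, hf⟩ i => hf.nn i
  le := fun _ ⟨_, hf⟩ i => hf.le_one i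
  re := fun f ⟨w, hf⟩ A => ⟨w, W.restr w f A hf⟩
  un := fun n => ⟨none, W.unit n⟩

lemma WX_idl (P : Par) : Idl (WX P) where
  nn := by
    rintro f (⟨hf, _⟩ | ⟨n, _, rfl⟩) i
    · exact (WW_idl P).nn f hf i
    · rw [Finsupp.single_apply]; split_ifs <;> norm_num
  le := by
    rintro f (⟨hf, _⟩ | ⟨n, _, rfl⟩) i
    · exact (WW_idl P).le f hf i
    · rw [Finsupp.single_apply]; split_ifs <;> norm_num
  re := by
    rintro f (⟨hf, he⟩ | ⟨n, hn, rfl⟩) A
    · exact Or.inl ⟨(WW_idl P).re f hf A, fun i hi => he i (rs_ne f A i hi).2⟩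
    · by_cases hA : n ∈ A
      · refine Or.inr ⟨n, hn, rs_eq_self _ _ ?_⟩
        intro i hi
        rcases eq_or_ne n i with h | h
        · rwa [← h]
        · exact absurd (Finsupp.single_eq_of_ne' h) hi
      · have h0 : rs (Finsupp.single n (1 : ℚ)) A = 0 := by
          ext i
          by_cases hi : i ∈ A
          · rw [rs_apply_of_mem _ _ _ hi]
            exact Finsupp.single_eq_of_ne' (fun h => hA (h ▸ hi))
          · rw [rs_apply_of_notMem _ _ _ hi]; rfl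
        rw [h0]
        exact Or.inl ⟨⟨_, W.zero P 0⟩, fun i hi => absurd rfl hi⟩
  un := by
    intro n
    rcases Nat.even_or_odd n with h | h
    · refine Or.inl ⟨(WW_idl P).un n, ?_⟩
      intro i hi
      rcases eq_or_ne n i with h' | h'
      · rwa [← h']
      · exact absurd (Finsupp.single_eq_of_ne' h') hi
    · exact Or.inr ⟨n, h, rfl⟩

/-- the norm of `c_0 + Z` in terms of the norm of `Z` -/
lemma NB_WX (P : Par) (x : ℕ → ℝ) (c : ℝ) :
    NB (WX P) x c ↔ NB (WW P) (cut {n | Even n} x) c ∧ ∀ n, Odd n → |x n| ≤ c := by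
  constructor
  · intro h
    refine ⟨?_, ?_⟩
    · intro f hf
      rw [← ev_rs]
      exact h _ (Or.inl ⟨(WW_idl P).re f hf _, fun i hi => (rs_ne _ _ i hi).1⟩)
    · intro n hn
      have := h (Finsupp.single n 1) (Or.inr ⟨n, hn, rfl⟩)
      rwa [ev_single] at this
  · rintro ⟨h1, h2⟩ f (⟨hf, he⟩ | ⟨n, hn, rfl⟩)
    · have h3 := h1 f hf
      rwa [← ev_rs, rs_eq_self f {n | Even n} (fun i hi => he i hi)] at h3
    · rw [ev_single]; exact h2 n hn

/-- lower estimate: sums of at most `n_{2j}` successive vectors -/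
lemma lower_est (P : Par) (j d : ℕ) (hd : d ≤ P.n (2 * j)) (u : ℕ → ℕ → ℝ)
    (w : ℕ → Option ℕ) (f : ℕ → (ℕ →₀ ℚ)) (c : ℕ → ℝ) (hf : ∀ i, i < d → W P (w i) (f i))
    (hc : ∀ i, i < d → c i ≤ ev (f i) (u i))
    (hu : ∀ i l, i < l → l < d → VLt (u i) (u l)) :
    ∃ F, W P (some (2 * j)) F ∧ (∀ n, F n ≠ 0 → ∃ i, i < d ∧ u i n ≠ 0) ∧
      (∑ i ∈ Finset.range d, c i) / P.m (2 * j)
        ≤ ev F (fun n => ∑ i ∈ Finset.range d, u i n) := by
  classical
  set g : ℕ → (ℕ →₀ ℚ) := fun i => rs (f i) {n | u i n ≠ 0} with hg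
  have hgW : ∀ i, i < d → W P (w i) (g i) := fun i hi => W.restr _ _ _ (hf i hi)
  have hgs : ∀ i n, g i n ≠ 0 → u i n ≠ 0 := fun i n h => (rs_ne _ _ n h).1
  have hlt : ∀ i l, i < l → l < d → Lt (g i) (g l) :=
    fun i l h1 h2 p q hp hq => hu i l h1 h2 p q (hgs i p hp) (hgs l q hq)
  refine ⟨_, W.even j d g w hd hgW hlt, ?_, ?_⟩
  · intro n hn
    rw [Finsupp.smul_apply, Finsupp.finsetSum_apply, smul_eq_mul] at hn
    have h1 : ∑ i ∈ Finset.range d, g i n ≠ 0 := fun h => hn (by rw [h, mul_zero])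
    obtain ⟨i, hi, hne⟩ := Finset.exists_ne_zero_of_sum_ne_zero h1
    exact ⟨i, Finset.mem_range.mp hi, hgs i n hne⟩
  · rw [ev_smul, ev_sum]
    push_cast
    rw [div_eq_inv_mul]
    apply mul_le_mul_of_nonneg_left _ (inv_nonneg.mpr (P.mpos' _).le)
    apply Finset.sum_le_sum
    intro i hi
    have hi' := Finset.mem_range.mp hi
    refine (hc i hi').trans ?_
    have h1 : ev (f i) (u i) = ev (g i) (u i) := by
      rw [hg]; simp only; rw [ev_rs]
      apply ev_congr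
      intro n _
      by_cases h : u i n = 0
      · unfold cut; rw [Set.indicator_of_notMem (by simpa using h), h]
      · unfold cut; rw [Set.indicator_of_mem (by simpa using h)]
    rw [h1]
    apply le_of_eq
    apply ev_congr
    intro n hn
    have hne := hgs i n hn
    rw [Finset.sum_eq_single_of_mem i hi]
    intro l hl hli
    by_contra hc'
    rcases lt_or_gt_of_ne hli with h2 | h2
    · exact lt_irrefl _ (hu l i h2 hi' n n hc' hne)
    · exact lt_irrefl _ (hu i l h2 (Finset.mem_range.mp hl) n n hne hc')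

/-- every finitely supported nonzero vector can be normalised up to a factor two -/
lemma exists_norm {S : Set (ℕ →₀ ℚ)} (hS : Idl S) {x : ℕ → ℝ} (s : Finset ℕ)
    (hx : ∀ i, x i ≠ 0 → i ∈ s) (h0 : ∃ i, x i ≠ 0) :
    ∃ ν : ℝ, 0 < ν ∧ NB S x ν ∧ ∃ f ∈ S, ν / 2 < ev f x := by
  set T : Set ℝ := (fun f => ev f x) '' S with hT
  have hbdd : BddAbove T := ⟨∑ i ∈ s, |x i|, by
    rintro _ ⟨f, hf, rfl⟩; exact NB.of_l1 hS s hx f hf⟩
  obtain ⟨i, hi⟩ := h0
  have hmem : |x i| ∈ T := ⟨_, hS.un i, ev_single i x⟩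
  have hpos : 0 < sSup T := lt_of_lt_of_le (abs_pos.mpr hi) (le_csSup hbdd hmem)
  refine ⟨sSup T, hpos, fun f hf => le_csSup hbdd ⟨f, hf, rfl⟩, ?_⟩
  obtain ⟨_, ⟨f, hf, rfl⟩, hlt⟩ := exists_lt_of_lt_csSup ⟨_, hmem⟩ (by linarith : sSup T / 2 < sSup T)
  exact ⟨f, hf, hlt⟩

lemma mv_apply_of_mem (t : ℕ → ℕ → ℝ) (F : Finset ℕ) (x : ℕ → ℝ) (i : ℕ) (h : i ∈ F) :
    mv t F x i = ∑ j ∈ F, t i j * x j := by unfold mv; rw [if_pos h]

lemma mv_apply_of_notMem (t : ℕ → ℕ → ℝ) (F : Finset ℕ) (x : ℕ → ℝ) (i : ℕ) (h : i ∉ F) :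
    mv t F x i = 0 := by unfold mv; rw [if_neg h]

end Pool.Agent.W586.GZ
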