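import Pool.Agent.W586.GZ.Defs

/-!
Project GZ: the statements of the parts.
-/

set_option autoImplicit false
open Filter Topology

namespace Pool.Agent.W586.GZ

def S_PARX : Prop := Nonempty Par

/-- counting the hits between successive functionals and successive vectors -/
def S_COMB1 : Prop := ∀ (d N : ℕ) (g : ℕ → (ℕ →₀ ℚ)) (z : ℕ → ℕ → ℝ) (c : ℝ), 0 ≤ c →
  (∀ r n, r < d → 0 ≤ g r n) →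
  (∀ r s, r < s → s < d → Lt (g r) (g s)) → (∀ i l, i < l → l < N → VLt (z i) (z l)) →
  (∀ i r, i < N → r < d → ev (g r) (z i) ≤ c) →
  ∑ i ∈ Finset.range N, ∑ r ∈ Finset.range d, ev (g r) (z i) ≤ c * (N + d)

def S_COMB2 : Prop := ∀ (d K : ℕ) (g : ℕ → (ℕ →₀ ℚ)) (v : ℕ → ℕ → ℝ) (I : Finset ℕ),
  (∀ r n, r < d → 0 ≤ g r n) →
  (∀ r s, r < s → s < d → Lt (g r) (g s)) → (∀ i l, i < l → l < K → VLt (v i) (v l)) →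
  I ⊆ Finset.range K →
  ∃ B ⊆ I, B.card ≤ d ∧ ∃ ρ : ℕ → ℕ, ∀ i ∈ I, i ∉ B → ∀ r, r < d → r ≠ ρ i →
    ∀ n, g r n ≠ 0 → v i n = 0

def S_REC1 : Prop := ∀ (P : Par) (K J : ℕ) (v : ℕ → ℕ → ℝ) (α C D : ℝ), 0 ≤ α → 0 ≤ C → C ≤ D →
  (∀ i l, i < l → l < K → VLt (v i) (v l)) → (∀ i, i < K → NB (WW P) (v i) C) →
  (∀ I : Finset ℕ, I ⊆ Finset.range K → ∀ t, J ≤ t → ∀ g, W P (some t) g →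
    ev g (fun n => ∑ i ∈ I, v i n) ≤ α * I.card + D) →
  ∀ (s : ℕ) (I : Finset ℕ), I ⊆ Finset.range K →
    NB (WW P) (fun n => ∑ i ∈ I, v i n)
      (α * I.card + C * I.card / 2 ^ s + 2 * D * ((P.n (J - 1) : ℝ) + 1) ^ s)

def S_REC2 : Prop := ∀ (P : Par) (K J : ℕ) (v : ℕ → ℕ → ℝ) (α C D : ℝ), 0 ≤ α → 0 ≤ C → C ≤ D →
  (∀ i l, i < l → l < K → VLt (v i) (v l)) → (∀ i, i < K → NB (WW P) (v i) C) →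
  (∀ I : Finset ℕ, I ⊆ Finset.range K → ∀ t, J ≤ t → ∀ g, W P (some t) g →
    ev g (fun n => ∑ i ∈ I, v i n) ≤ α * I.card + D) →
  (∀ i, i < K → ∀ t, t < J → ∀ g, W P (some t) g → ev g (v i) ≤ C / P.m t) →
  ∀ (s : ℕ) (I : Finset ℕ), I ⊆ Finset.range K → ∀ t, t < J → ∀ g, W P (some t) g →
    ev g (fun n => ∑ i ∈ I, v i n) ≤
      (α * I.card + C * I.card / 2 ^ s + 3 * D * ((P.n (J - 1) : ℝ) + 1) ^ (s + 1)) / P.m t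

def S_RISH : Prop := ∀ (P : Par) (K : ℕ) (J : ℕ → ℕ) (x : ℕ → ℕ → ℝ), RIS P K J x →
  ∀ I : Finset ℕ, I ⊆ Finset.range K → ∀ t g, W P (some t) g →
    ev g (fun n => ∑ i ∈ I, x i n) ≤ 4 / P.m t * I.card + 8

def S_EXV : Prop := ∀ (P : Par) (q : ℕ) (J : ℕ → ℕ) (x : ℕ → ℕ → ℝ), 1 ≤ q →
  RIS P (P.n (2 * q)) J x → 2 * q < J 0 →
  Exact P q (fun n => (P.m (2 * q) : ℝ) / P.n (2 * q) * ∑ l ∈ Finset.range (P.n (2 * q)), x l n)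

def S_AVG : Prop := ∀ (P : Par) (N : ℕ) (y : ℕ → ℝ), Avg P N y →
  NB (WW P) y 2 ∧ (∀ t, P.n t ≤ N → ∀ g, W P (some t) g → ev g y ≤ 4 / P.m t) ∧
    ∀ A : Set ℕ, Avg P N (cut A y)

def S_SEL : Prop := ∀ (P : Par) (Q : ℕ → ℕ → (ℕ → ℝ) → Prop),
  (∀ N0 M0 : ℕ, ∃ N M1 x, N0 ≤ N ∧ M0 < M1 ∧ Avg P N x ∧ (∀ n, x n ≠ 0 → M0 ≤ n ∧ n < M1) ∧
    Q M0 M1 x) →
  ∀ M0 q : ℕ, ∃ (c J : ℕ → ℕ) (x : ℕ → ℕ → ℝ), c 0 = M0 ∧ StrictMono c ∧ 2 * q < J 0 ∧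
    (∀ K, RIS P K J x) ∧ (∀ l n, x l n ≠ 0 → c l ≤ n ∧ n < c (l + 1)) ∧
    ∀ l, Q (c l) (c (l + 1)) (x l)

def S_SHRA : Prop := ∀ (P : Par) (γ : ℕ → ℝ) (G : ℝ),
  (∀ (s : Finset ℕ) (x : ℕ → ℝ), (∀ n, x n ≠ 0 → n ∈ s) → NB (WW P) x 1 →
    |∑ n ∈ s, γ n * x n| ≤ G) →
  ∀ ε : ℝ, 0 < ε → ∃ N0 : ℕ, ∀ N, N0 ≤ N → ∀ (y : ℕ → ℝ) (s : Finset ℕ), Avg P N y →
    (∀ n, y n ≠ 0 → n ∈ s) → |∑ n ∈ s, γ n * y n| ≤ ε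

def S_CUTM : Prop := ∀ (G : Finset ℕ) (c : ℕ → ℕ → ℝ), (∀ i, c i i = 0) →
  ∃ A ⊆ G, (∑ i ∈ G, ∑ j ∈ G, c i j) / 4 ≤ ∑ i ∈ G \ A, ∑ j ∈ A, c i j

/-- averages far out on which the matrix `t` is large off their support -/
def Supply (P : Par) (t : ℕ → ℕ → ℝ) (δ : ℝ) : Prop := ∀ N0 M0 : ℕ, ∃ N M1 x φ, N0 ≤ N ∧ M0 < M1 ∧
  Avg P N x ∧ (∀ n, x n ≠ 0 → M0 ≤ n ∧ n < M1) ∧ φ ∈ WW P ∧ (∀ n, φ n ≠ 0 → M0 ≤ n ∧ n < M1) ∧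
  (∀ n, φ n ≠ 0 → x n = 0) ∧ δ ≤ ev φ (mv t (Finset.Ico M0 M1) x)

def S_STAR : Prop := ∀ (P : Par) (t : ℕ → ℕ → ℝ) (C ε : ℝ), (∀ i, t i i = 0) →
  CB (WW P) t C → 0 < ε →
  (∀ N0 : ℕ, ∃ (N : ℕ) (y : ℕ → ℝ) (F : Finset ℕ), N0 ≤ N ∧ Avg P N y ∧ (∀ n, y n ≠ 0 → n ∈ F) ∧
    ¬ NB (WW P) (mv t F y) ε) →
  Supply P t (ε / 8)

/-- exact pairs off the support -/
def Pairs (P : Par) (t : ℕ → ℕ → ℝ) (δ : ℝ) : Prop := ∀ q M0 : ℕ, 1 ≤ q →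
  ∃ (M1 : ℕ) (y : ℕ → ℝ) (f : ℕ →₀ ℚ) (κ : ℕ → ℕ), M0 < M1 ∧ Exact P q y ∧ W P (some (2 * q)) f ∧
    (∀ n, y n ≠ 0 → M0 ≤ n ∧ n < M1) ∧ (∀ n, f n ≠ 0 → M0 ≤ n ∧ n < M1) ∧
    (∀ n, f n ≠ 0 → y n = 0) ∧ δ ≤ ev f (mv (blk κ t) (Finset.Ico M0 M1) y)

def S_PAIR : Prop := ∀ (P : Par) (t : ℕ → ℕ → ℝ) (δ : ℝ), Supply P t δ → Pairs P t δ

/-- dependent sequences -/
structure Dep (P : Par) (j : ℕ) (y : ℕ → ℕ → ℝ) (f : ℕ → (ℕ →₀ ℚ)) (q : ℕ → ℕ) : Prop where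
  qj : ∀ i, i < P.n (2 * j + 1) → j < q i
  qm : ∀ i l, i < l → l < P.n (2 * j + 1) → q i < q l
  ex : ∀ i, i < P.n (2 * j + 1) → Exact P (q i) (y i)
  fw : ∀ i, i < P.n (2 * j + 1) → W P (some (2 * q i)) (f i)
  tau : ∀ i, i < P.n (2 * j + 1) → P.tau (q i) = (List.range i).map f
  ys : ∀ i l, i < l → l < P.n (2 * j + 1) → VLt (y i) (y l)
  fs : ∀ i l, i < l → l < P.n (2 * j + 1) → Lt (f i) (f l)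
  dis : ∀ i l, i < P.n (2 * j + 1) → l < P.n (2 * j + 1) → ∀ n, f i n ≠ 0 → y l n = 0

def S_DSEQ : Prop := ∀ (P : Par) (t : ℕ → ℕ → ℝ) (δ : ℝ), 0 < δ → Pairs P t δ → ∀ j : ℕ,
  ∃ (y : ℕ → ℕ → ℝ) (f : ℕ → (ℕ →₀ ℚ)) (q κ : ℕ → ℕ) (M : ℕ), Dep P j y f q ∧
    (P.n (2 * j + 1) : ℝ) * δ / P.m (2 * j + 1) ≤
      ev (((P.m (2 * j + 1) : ℚ)⁻¹) • ∑ i ∈ Finset.range (P.n (2 * j + 1)), f i)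
        (mv (blk κ t) (Finset.range M)
          (fun n => ∑ i ∈ Finset.range (P.n (2 * j + 1)), y i n))

def S_DEPH1 : Prop := ∀ (P : Par) (j : ℕ) (y : ℕ → ℕ → ℝ) (f : ℕ → (ℕ →₀ ℚ)) (q : ℕ → ℕ),
  Dep P j y f q → ∀ I : Finset ℕ, I ⊆ Finset.range (P.n (2 * j + 1)) →
    ∀ g, W P (some (2 * j + 1)) g →
    ev g (fun n => ∑ i ∈ I, y i n) ≤ 24 / (P.m (2 * j + 1) : ℝ) ^ 2 * I.card + 36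

def S_DEPH2 : Prop := ∀ (P : Par) (j : ℕ) (y : ℕ → ℕ → ℝ) (f : ℕ → (ℕ →₀ ℚ)) (q : ℕ → ℕ),
  Dep P j y f q → ∀ I : Finset ℕ, I ⊆ Finset.range (P.n (2 * j + 1)) →
    ∀ t, 2 * j + 2 ≤ t → ∀ g, W P (some t) g →
    ev g (fun n => ∑ i ∈ I, y i n) ≤ 24 / (P.m (2 * j + 1) : ℝ) ^ 2 * I.card + 36

def S_DEP : Prop := ∀ (P : Par) (j : ℕ) (y : ℕ → ℕ → ℝ) (f : ℕ → (ℕ →₀ ℚ)) (q : ℕ → ℕ),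
  Dep P j y f q →
    NB (WW P) (fun n => ∑ i ∈ Finset.range (P.n (2 * j + 1)), y i n)
      (48 * P.n (2 * j + 1) / (P.m (2 * j + 1) : ℝ) ^ 2)

def S_BLK : Prop := ∀ S : Set (ℕ →₀ ℚ), Idl S → ∀ (t : ℕ → ℕ → ℝ) (C : ℝ) (κ : ℕ → ℕ),
  CB S t C → CB S (blk κ t) C

def S_K : Prop := ∀ (P : Par) (t : ℕ → ℕ → ℝ) (C : ℝ), (∀ i, t i i = 0) → CB (WW P) t C →
  ∀ ε : ℝ, 0 < ε → ∃ N0 : ℕ, ∀ N, N0 ≤ N → ∀ (y : ℕ → ℝ) (F : Finset ℕ), Avg P N y →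
    (∀ n, y n ≠ 0 → n ∈ F) → NB (WW P) (mv t F y) ε

/-- almost normalised block sequences -/
structure BS (P : Par) (x : ℕ → ℕ → ℝ) : Prop where
  succ : ∀ i l, i < l → VLt (x i) (x l)
  fin : ∀ i, ∃ M : ℕ, ∀ n, x i n ≠ 0 → n < M
  nb : ∀ i, NB (WW P) (x i) 1
  lo : ∀ i, ∃ f ∈ WW P, 1 / 2 ≤ ev f (x i)

def S_JAMES : Prop := ∀ (P : Par) (N : ℕ), 1 ≤ N → ∃ B : ℝ, 0 < B ∧ ∀ x : ℕ → ℕ → ℝ, BS P x →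
  ∀ k0 : ℕ, ∃ (a : ℕ → ℝ) (K : ℕ), (∀ k, a k ≠ 0 → k0 ≤ k ∧ k < K) ∧ (∀ k, 0 ≤ a k ∧ a k ≤ B) ∧
    Avg P N (fun n => ∑ k ∈ Finset.range K, a k * x k n) ∧
    ∃ f ∈ WW P, 1 ≤ ev f (fun n => ∑ k ∈ Finset.range K, a k * x k n)

def S_L1 : Prop := ∀ (P : Par) (N : ℕ) (ε : ℝ), 1 ≤ N → 0 < ε → ∀ x : ℕ → ℕ → ℝ, BS P x →
  ∃ (a : ℕ → ℝ) (K : ℕ), (∀ k, a k ≠ 0 → k < K) ∧ (∀ k, 0 ≤ a k ∧ a k ≤ ε) ∧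
    Avg P N (fun n => ∑ k ∈ Finset.range K, a k * x k n) ∧
    ∃ f ∈ WW P, 1 ≤ ev f (fun n => ∑ k ∈ Finset.range K, a k * x k n)

def S_SHRW : Prop := ∀ (P : Par) (γ : ℕ → ℝ) (G : ℝ),
  (∀ (s : Finset ℕ) (x : ℕ → ℝ), (∀ n, x n ≠ 0 → n ∈ s) → NB (WX P) x 1 →
    |∑ n ∈ s, γ n * x n| ≤ G) →
  ∀ ε : ℝ, 0 < ε → ∃ M : ℕ, ∀ (s : Finset ℕ) (x : ℕ → ℝ), (∀ n, x n ≠ 0 → n ∈ s) →
    (∀ n ∈ s, M ≤ n) → NB (WX P) x 1 → |∑ n ∈ s, γ n * x n| ≤ ε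

/-! ### The Banach space -/

def S_BAN : Prop := ∀ S : Set (ℕ →₀ ℚ), Idl S →
  ∃ (X : Type) (_ : NormedAddCommGroup X) (_ : NormedSpace ℝ X) (_ : CompleteSpace X)
    (e : ℕ → X) (e' : ℕ → (X →L[ℝ] ℝ)), Model S X e e'

def S_EXT : Prop := ∀ (S : Set (ℕ →₀ ℚ)) (X : Type) [NormedAddCommGroup X] [NormedSpace ℝ X]
  [CompleteSpace X] (e : ℕ → X) (e' : ℕ → (X →L[ℝ] ℝ)), Idl S → Model S X e e' →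
  ∀ (v : ℕ → X) (C : ℝ), 0 ≤ C →
    (∀ (s : Finset ℕ) (a : ℕ → ℝ), ‖∑ n ∈ s, a n • v n‖ ≤ C * ‖∑ n ∈ s, a n • e n‖) →
    ∃ T : X →L[ℝ] X, (∀ n, T (e n) = v n) ∧ ‖T‖ ≤ C

def S_MULT : Prop := ∀ (S : Set (ℕ →₀ ℚ)) (X : Type) [NormedAddCommGroup X] [NormedSpace ℝ X]
  [CompleteSpace X] (e : ℕ → X) (e' : ℕ → (X →L[ℝ] ℝ)), Idl S → Model S X e e' →
  ∀ (a : ℕ → ℝ) (c : ℝ), (∀ n, |a n| ≤ c) →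
    ∃ D : X →L[ℝ] X, (∀ n, D (e n) = a n • e n) ∧ (∀ x n, e' n (D x) = a n * e' n x) ∧ ‖D‖ ≤ c

def S_MATX : Prop := ∀ (S : Set (ℕ →₀ ℚ)) (X : Type) [NormedAddCommGroup X] [NormedSpace ℝ X]
  [CompleteSpace X] (e : ℕ → X) (e' : ℕ → (X →L[ℝ] ℝ)), Idl S → Model S X e e' →
  (∀ T : X →L[ℝ] X, CB S (fun i j => e' i (T (e j))) ‖T‖) ∧
  (∀ x : X, Tendsto (fun n => e' n x) atTop (𝓝 0)) ∧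
  (∀ x y : X, (∀ n, e' n x = e' n y) → x = y)

def S_INV : Prop := ∀ (S : Set (ℕ →₀ ℚ)) (X : Type) [NormedAddCommGroup X] [NormedSpace ℝ X]
  [CompleteSpace X] (e : ℕ → X) (e' : ℕ → (X →L[ℝ] ℝ)), Idl S → Model S X e e' →
  (∀ g : X →L[ℝ] ℝ, ∀ ε : ℝ, 0 < ε → ∃ M : ℕ, ∀ x : X, (∀ n, n < M → e' n x = 0) →
    |g x| ≤ ε * ‖x‖) →
  ∀ (R : X →L[ℝ] X) (K : ℝ), 0 ≤ K →
    (∀ (F : Finset ℕ) (x : ℕ → ℝ) (b : ℝ), NB S (mv (fun i j => e' i (R (e j))) F x) b →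
      NB S (cut (↑F) x) (K * b)) →
    ∃ Q : X →L[ℝ] X, ∀ x, Q (R x) = x

/-! ### Operators on `c_0 + Z` -/

def S_SHRX : Prop := ∀ (P : Par) (X : Type) [NormedAddCommGroup X] [NormedSpace ℝ X]
  [CompleteSpace X] (e : ℕ → X) (e' : ℕ → (X →L[ℝ] ℝ)), Model (WX P) X e e' →
  ∀ g : X →L[ℝ] ℝ, ∀ ε : ℝ, 0 < ε → ∃ M : ℕ, ∀ x : X, (∀ n, n < M → e' n x = 0) →
    |g x| ≤ ε * ‖x‖

def S_SPARSE : Prop := ∀ (P : Par) (t : ℕ → ℕ → ℝ) (C : ℝ), CB (WX P) t C →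
  (∀ j, Tendsto (fun i => t i j) atTop (𝓝 0)) → ∀ η : ℝ, 0 < η →
  ∃ p : ℕ → ℕ, StrictMono p ∧ (∀ a, Odd (p a)) ∧
    ∀ (a : ℕ) (s : Finset ℕ), a ∉ s → ∑ b ∈ s, |t (p a) (p b)| ≤ η

def S_LOWB : Prop := ∀ (P : Par) (t : ℕ → ℕ → ℝ) (C δ c0 : ℝ) (F : ℕ → Finset ℕ)
  (w : ℕ → ℕ → ℝ) (c : ℕ → ℕ), CB (WX P) t C → 0 < δ → 0 < c0 → (∀ n, δ ≤ |t n n|) →
  StrictMono c → (∀ k n, n ∈ F k → c k ≤ n ∧ n < c (k + 1)) → (∀ k n, w k n ≠ 0 → n ∈ F k) →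
  (∀ k, NB (WX P) (w k) 1) → (∀ k, NB (WX P) (mv t (F k) (w k)) (1 / 2 ^ k)) →
  (∀ k, ∃ f ∈ WW P, c0 ≤ ev f (cut {n | Even n} (w k))) → False

def S_LOW : Prop := ∀ (P : Par) (t : ℕ → ℕ → ℝ) (C δ : ℝ) (p : ℕ → ℕ), CB (WX P) t C → 0 < δ →
  (∀ n, δ ≤ |t n n|) → StrictMono p → (∀ a, Odd (p a)) →
  (∀ (a : ℕ) (s : Finset ℕ), a ∉ s → ∑ b ∈ s, |t (p a) (p b)| ≤ δ / 4) →
  ∃ (N : ℕ) (K : ℝ), 0 ≤ K ∧ ∀ F : Finset ℕ, (∀ n ∈ F, N ≤ n ∧ (Even n ∨ ∃ a, n = p a)) →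
    ∀ (x : ℕ → ℝ) (b : ℝ), NB (WX P) (mv t F x) b → NB (WX P) (cut (↑F) x) (K * b)

def S_ABS : Prop := ∀ (P : Par) (X : Type) [NormedAddCommGroup X] [NormedSpace ℝ X]
  [CompleteSpace X] (e : ℕ → X) (e' : ℕ → (X →L[ℝ] ℝ)), Model (WX P) X e e' →
  ∀ (N : ℕ) (p : ℕ → ℕ), StrictMono p → (∀ a, Odd (p a)) →
    ∃ A B : X →L[ℝ] X, (∀ x n, ¬ (N ≤ n ∧ (Even n ∨ ∃ a, n = p a)) → e' n (A x) = 0) ∧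
      ∀ x, B (A x) = x

def S_FACT : Prop := ∀ (P : Par) (X : Type) [NormedAddCommGroup X] [NormedSpace ℝ X]
  [CompleteSpace X] (e : ℕ → X) (e' : ℕ → (X →L[ℝ] ℝ)), Model (WX P) X e e' →
  ∀ T : X →L[ℝ] X, (∃ δ : ℝ, 0 < δ ∧ ∀ n : ℕ, δ ≤ |e' n (T (e n))|) →
    ∃ A B : X →L[ℝ] X, A.comp (T.comp B) = ContinuousLinearMap.id ℝ X

def S_GLIDE : Prop := ∀ (P : Par) (r : ℕ) (u : ℕ → ℕ → ℕ → ℝ) (C : ℝ),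
  (∀ i, i < r → CB (WX P) (u i) C) →
  (∀ i, i < r → ∀ j, Tendsto (fun n => u i n j) atTop (𝓝 0)) →
  ∃ p : ℕ → ℕ, StrictMono p ∧ (∀ l, Even (p l)) ∧ ∀ (a : ℕ → ℝ) (K : ℕ) (η : ℝ),
    (∀ l, |a l| ≤ η) → ∀ i, i < r → ∀ n,
      |∑ l ∈ Finset.range K, a l * u i n (p l)| ≤ η * (C + 2)

def S_C2 : Prop := ∀ (P : Par) (X : Type) [NormedAddCommGroup X] [NormedSpace ℝ X]
  [CompleteSpace X] (e : ℕ → X) (e' : ℕ → (X →L[ℝ] ℝ)), Model (WX P) X e e' →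
  ∀ (r : ℕ) (U : ℕ → (X →L[ℝ] X)) (ε : ℝ), 0 < ε →
    ∃ y : X, 1 ≤ ‖y‖ ∧ ∀ i, i < r → ∀ D : X →L[ℝ] X,
      (∀ n, D (e n) = e' n (U i (e n)) • e n) → ‖U i y - D y‖ ≤ ε

def S_C3 : Prop := ∀ (P : Par) (X : Type) [NormedAddCommGroup X] [NormedSpace ℝ X]
  [CompleteSpace X] (e : ℕ → X) (e' : ℕ → (X →L[ℝ] ℝ)), Model (WX P) X e e' →
  ∀ V₁ V₂ U₁ U₂ : X →L[ℝ] X, (∀ x, V₁ (U₁ x) = x) → (∀ x, V₂ (U₂ x) = x) →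
    (∀ x, V₁ (U₂ x) = 0) → (∀ x, V₂ (U₁ x) = 0) → False

end Pool.Agent.W586.GZ
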